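import Pool.Agent.TH682.GD.Search
import Pool.Agent.H579R2.Spt.Complete2

/-!
# Differences of permutation groups and bounded nondeterminism
-/

set_option autoImplicit false

namespace Pool.Agent.TH682.GD

open Pool.Agent.NPC Pool.Agent.H579R2.Spt
open Pool.Agent.TH684.EX (poly_of_polyTime)

theorem exists_pow_add_bound (p : Polynomial ℕ) : ∃ b : ℕ, ∀ n : ℕ, p.eval n ≤ n ^ b + b := by
  obtain ⟨e, he⟩ := exists_pow_bound p
  refine ⟨e + p.eval 1, fun n => ?_⟩
  rcases Nat.lt_or_ge n 2 with h | h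
  · have : p.eval n ≤ p.eval 1 := eval_mono p (by omega)
    omega
  · have h1 := he n h
    have h2 : n ^ e ≤ n ^ (e + p.eval 1) := Nat.pow_le_pow_right (by omega) (by omega)
    omega

/-- Decoding of input and advice. -/
def dia (z : List Bool) : List Bool × ℕ := (unbits (List Bool × ℕ) z).getD ([], 0)

theorem dia_bits (q : List Bool × ℕ) : dia (bits q) = q := by
  rw [dia, unbits_bits]
  rfl

theorem dia_poly : Poly dia := NPC.Poly.optGetD poly_unbits (NPC.Poly.const _)

/-- Decoding of input, length in unary, and advice. -/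
def dib (z : List Bool) : List Bool × (List Bool × ℕ) :=
  (unbits (List Bool × (List Bool × ℕ)) z).getD ([], ([], 0))

theorem dib_bits (q : List Bool × (List Bool × ℕ)) : dib (bits q) = q := by
  rw [dib, unbits_bits]
  rfl

theorem dib_poly : Poly dib := NPC.Poly.optGetD poly_unbits (NPC.Poly.const _)

/-- Closure under many-one reductions. -/
theorem GroupDiff.of_reduces {k : ℕ} {A A' : Set (List Bool)} (h : Reduces A' A)
    (hA : GroupDiff k A) : GroupDiff k A' := by
  obtain ⟨r, hr, hrA⟩ := h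
  obtain ⟨f, b, hf, hG⟩ := hA
  have hrp : Poly r := PIso.poly_iff.2 hr
  have hfp : Poly f := poly_of_polyTime hf
  obtain ⟨p, hp⟩ := hrp.sz_le
  set p' : Polynomial ℕ := p.comp (Polynomial.C 4 * Polynomial.X + 1) with hp'
  have hlen : ∀ n : ℕ, ∀ x : List Bool, x.length ≤ n → (r x).length ≤ p'.eval n := by
    intro n x hx
    have h1 := hp x
    have h2 := sz_listBool_le x
    have h3 := length_lt_sz (r x)
    have h4 : p.eval (sz x) ≤ p.eval (4 * n + 1) := eval_mono p (by omega)
    rw [hp', Polynomial.eval_comp]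
    simp only [Polynomial.eval_add, Polynomial.eval_mul, Polynomial.eval_C, Polynomial.eval_X,
      Polynomial.eval_one]
    omega
  obtain ⟨b', hb'⟩ := exists_pow_add_bound (p' ^ b + Polynomial.C b)
  have d2 : Poly (fun z => (dib z).2.1) := NPC.Poly.fst (NPC.Poly.snd dib_poly)
  refine ⟨fun z => f (bits (r (dib z).1, (List.replicate (p'.eval (dib z).2.1.length) true,
    (dib z).2.2))), b', polyTime_bits (hfp.comp (bits_poly.comp (NPC.Poly.pair
      (hrp.comp (NPC.Poly.fst dib_poly)) (NPC.Poly.pair (replicate_true_poly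
        ((UPoly.length d2).eval p')) (NPC.Poly.snd (NPC.Poly.snd dib_poly)))))), fun n => ?_⟩
  obtain ⟨a, ha, N, H, h1⟩ := hG (p'.eval n)
  refine ⟨a, ?_, N, H, fun x hx => ?_⟩
  · have h2 := hb' n
    simp only [Polynomial.eval_add, Polynomial.eval_pow, Polynomial.eval_C] at h2
    omega
  · obtain ⟨ps, h2, h3, h4⟩ := h1 (r x) (hlen n x hx)
    refine ⟨ps, h2, ?_, (hrA x).trans h4⟩
    simp only [dib_bits, List.length_replicate]
    exact h3

theorem vals_one {N : ℕ} : vals (1 : Equiv.Perm (Fin N)) = List.range N := by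
  refine List.ext_getElem (by simp) fun i h1 h2 => ?_
  rw [vals_getElem]
  simp

/-- Complements. -/
theorem GroupDiff.compl {k : ℕ} {A : Set (List Bool)} (hA : GroupDiff k A) :
    GroupDiff (k + 1) Aᶜ := by
  classical
  obtain ⟨f, b, hf, hG⟩ := hA
  have hfp : Poly f := poly_of_polyTime hf
  refine ⟨fun z => List.range ((f z).getD 0 []).length :: f z, b, polyTime_bits (NPC.Poly.cons
    (UPoly.length (NPC.Poly.getD hfp (NPC.Poly.const 0) (NPC.Poly.const []))).range hfp),
    fun n => ?_⟩
  obtain ⟨a, ha, N, H, h1⟩ := hG n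
  rcases Nat.eq_zero_or_pos k with hk | hk
  · subst hk
    refine ⟨a, ha, 0, ⊤, fun x hx => ?_⟩
    obtain ⟨ps, h2, h3, h4⟩ := h1 x hx
    rw [List.length_eq_zero_iff] at h2
    subst h2
    refine ⟨[1], rfl, ?_, ?_⟩
    · simp only [h3]
      simp [vals_one]
    · rw [Set.mem_compl_iff, h4]
      simp [lead]
  · refine ⟨a, ha, N, H, fun x hx => ?_⟩
    obtain ⟨ps, h2, h3, h4⟩ := h1 x hx
    refine ⟨1 :: ps, by simp [h2], ?_, ?_⟩
    · simp only [h3]
      rw [List.map_cons, vals_one]
      congr 2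
      rw [List.getD_eq_getElem _ _ (by rw [List.length_map]; omega), List.getElem_map,
        vals_length]
    · rw [Set.mem_compl_iff, h4]
      have h5 : lead H (1 :: ps) = lead H ps + 1 := by
        unfold lead
        rw [List.takeWhile_cons]
        simp [H.one_mem]
      rw [h5, Nat.odd_add_one]

theorem lead_bot_one : lead (⊥ : Subgroup (Equiv.Perm (Fin 2))) [1] = 1 := by
  classical
  simp [lead]

theorem lead_bot_swap : lead (⊥ : Subgroup (Equiv.Perm (Fin 2))) [Equiv.swap 0 1] = 0 := by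
  classical
  unfold lead
  rw [List.takeWhile_cons]
  have h : ¬ (Equiv.swap (0 : Fin 2) 1 ∈ (⊥ : Subgroup (Equiv.Perm (Fin 2)))) := by
    rw [Subgroup.mem_bot]
    decide
  simp [h]

/-- Sets in `P` are differences of one permutation group. -/
theorem groupDiff_of_inP {A : Set (List Bool)} (h : InP A) : GroupDiff 1 A := by
  classical
  obtain ⟨V, hV, hVA⟩ := h
  have hVp : Poly V := PIso.poly_iff.2 hV
  refine ⟨fun z => if V (dib z).1 = [true] then [[0, 1]] else [[1, 0]], 0,
    polyTime_bits (NPC.Poly.ite (NPC.Poly.decide_eq (hVp.comp (NPC.Poly.fst dib_poly))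
      (NPC.Poly.const _)) (NPC.Poly.const _) (NPC.Poly.const _)), fun n => ?_⟩
  refine ⟨0, Nat.zero_le _, 2, ⊥, fun x _ => ?_⟩
  by_cases hx : V x = [true]
  · refine ⟨[1], rfl, ?_, ?_⟩
    · simp only [dib_bits, hx, if_true]
      decide
    · rw [hVA x, lead_bot_one]
      simp [hx]
  · refine ⟨[Equiv.swap 0 1], rfl, ?_, ?_⟩
    · simp only [dib_bits, hx, if_false]
      decide
    · rw [hVA x, lead_bot_swap]
      simp [hx]

/-- **Bounded nondeterminism and differences of permutation groups.** -/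
theorem group_tfae (g : ℕ → ℕ) (hmono : Monotone g)
    (hg : PolyTime (fun x => List.replicate (g x.length) true)) : List.TFAE
    [∀ L : Set (List Bool), InNPg g L → InP L,
      ∃ (A : Set (List Bool)) (k : ℕ), (NPgHard g A ∨ NPgHard g Aᶜ) ∧ GroupDiff k A,
      ∀ A : Set (List Bool), InNPg g A → ∃ k, GroupDiff k A,
      ∀ A : Set (List Bool), InNPg g A → GroupDiff 1 A] := by
  have hgU : UPoly (fun x : List Bool => g x.length) := by
    have h1 := UPoly.length (PIso.poly_iff.2 hg)
    have h2 : (fun x : List Bool => (List.replicate (g x.length) true).length) =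
        fun x : List Bool => g x.length := by
      funext x
      simp
    rw [h2] at h1
    exact h1
  have key : ∀ (L : Set (List Bool)), InNPg g L → ∃ V : List Bool → List Bool, Poly V ∧
      InNPg g (lang (LeftP V g)) ∧ ∀ k, GroupDiff k (lang (LeftP V g)) → InP L := by
    intro L hL
    obtain ⟨V, hV, hVL⟩ := hL
    have hVp : Poly V := PIso.poly_iff.2 hV
    refine ⟨V, hVp, left_inNPg hVp hmono hgU.toPoly, fun k hk => ?_⟩
    have h1 := inP_of_left hVp hgU hk
    have h2 : L = {x | ∃ w : List Bool, w.length ≤ g x.length ∧ V (pairBits x w) = [true]} := by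
      ext x
      exact hVL x
    rw [h2]
    exact h1
  tfae_have 1 → 4 := fun h A hA => groupDiff_of_inP (h A hA)
  tfae_have 4 → 3 := fun h A hA => ⟨1, h A hA⟩
  tfae_have 3 → 1 := fun h L hL => by
    obtain ⟨V, _, h1, h2⟩ := key L hL
    obtain ⟨k, hk⟩ := h _ h1
    exact h2 k hk
  tfae_have 1 → 2 := fun h => by
    refine ⟨{[true]}, 1, Or.inl fun L hL => ?_, groupDiff_of_inP ?_⟩
    · obtain ⟨V, hV, hVL⟩ := h L hL
      exact ⟨V, hV, fun x => by rw [hVL x, Set.mem_singleton_iff]⟩
    · exact ⟨fun x => x, polyTime_id, fun x => by rw [Set.mem_singleton_iff]⟩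
  tfae_have 2 → 1 := fun ⟨A, k, hA, hk⟩ L hL => by
    obtain ⟨V, _, h1, h2⟩ := key L hL
    rcases hA with hA | hA
    · exact h2 k (GroupDiff.of_reduces (hA _ h1) hk)
    · exact h2 (k + 1) (GroupDiff.of_reduces (hA _ h1) hk.compl)
  tfae_finish

/-- The case of `NP`. -/
theorem group_np : (∀ L : Set (List Bool), InNP L → InP L) ↔
    ∃ (A : Set (List Bool)) (k : ℕ), (NPHard A ∨ NPHard Aᶜ) ∧ GroupDiff k A := by
  constructor
  · intro h
    refine ⟨{[true]}, 1, Or.inl fun L hL => ?_, groupDiff_of_inP ?_⟩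
    · obtain ⟨V, hV, hVL⟩ := h L hL
      exact ⟨V, hV, fun x => by rw [hVL x, Set.mem_singleton_iff]⟩
    · exact ⟨fun x => x, polyTime_id, fun x => by rw [Set.mem_singleton_iff]⟩
  · rintro ⟨A, k, hA, hk⟩ L ⟨V, p, hV, hVL⟩
    have hmono : Monotone (fun n : ℕ => p.eval n) := fun m n h => eval_mono p h
    have hgU : UPoly (fun x : List Bool => p.eval x.length) :=
      (UPoly.length NPC.Poly.id).eval p
    have hg : PolyTime (fun x : List Bool => List.replicate (p.eval x.length) true) :=
      PIso.poly_iff.1 (replicate_true_poly hgU)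
    have h1 : ∀ L' : Set (List Bool), InNPg (fun n => p.eval n) L' → InNP L' := by
      rintro L' ⟨V', hV', hVL'⟩
      exact ⟨V', p, hV', hVL'⟩
    have h2 : (∀ L : Set (List Bool), InNPg (fun n => p.eval n) L → InP L) ↔
        ∃ (A : Set (List Bool)) (k : ℕ), (NPgHard (fun n => p.eval n) A ∨
          NPgHard (fun n => p.eval n) Aᶜ) ∧ GroupDiff k A :=
      (group_tfae (fun n => p.eval n) hmono hg).out 0 1
    refine h2.2 ⟨A, k, ?_, hk⟩ L ⟨V, hV, hVL⟩
    exact hA.imp (fun h L' hL' => h L' (h1 L' hL')) (fun h L' hL' => h L' (h1 L' hL'))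

end Pool.Agent.TH682.GD
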