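import Pool.Agent.TH682.GD.Blk
import Pool.Agent.H579R2.Spt.VV3
import Pool.Agent.H579R2.Spt.Main2
import Pool.Agent.W901.FH.PolyF

/-!
# Polynomial time bounds for the operations on permutations
-/

set_option autoImplicit false

namespace Pool.Agent.TH682.GD

open Pool.Agent.NPC Pool.Agent.H579R2.Spt
open Pool.Agent.W901.FH (pow_polyc pow_upolyc)

section poly

variable {α : Type} [TEnc α]

theorem cmp_poly {u v : α → List ℕ} (hu : Poly u) (hv : Poly v) :
    Poly (fun a => cmp (u a) (v a)) :=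
  NPC.Poly.map (l := v) (F := fun a j => (u a).getD j 0) hv
    (NPC.Poly.getD (hu.comp (NPC.Poly.fst NPC.Poly.id)) (NPC.Poly.snd NPC.Poly.id)
      (NPC.Poly.const 0))

theorem ivl_poly {u : α → List ℕ} (hu : Poly u) : Poly (fun a => ivl (u a)) := by
  have hr : Poly (fun a => List.range (u a).length) := (UPoly.length hu).range
  refine NPC.Poly.map (l := fun a => List.range (u a).length)
    (F := fun a j => (((List.range (u a).length).filter
      (fun i => decide ((u a).getD i 0 = j))).head?).getD 0) hr ?_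
  refine NPC.Poly.optGetD (NPC.Poly.head? (NPC.Poly.filter
    (l := fun q : α × ℕ => List.range (u q.1).length)
    (p := fun q i => decide ((u q.1).getD i 0 = q.2)) (hr.comp (NPC.Poly.fst NPC.Poly.id)) ?_))
    (NPC.Poly.const 0)
  exact NPC.Poly.decide_eq (NPC.Poly.getD (hu.comp (NPC.Poly.fst (NPC.Poly.fst NPC.Poly.id)))
    (NPC.Poly.snd NPC.Poly.id) (NPC.Poly.const 0)) (NPC.Poly.snd (NPC.Poly.fst NPC.Poly.id))

theorem key_poly {u : α → List ℕ} (hu : Poly u) : Poly (fun a => key (u a)) := by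
  have hr : Poly (fun a => List.range (u a).length) := (UPoly.length hu).range
  have h1 : Poly (fun a => ((List.range (u a).length).filter
      (fun i => !decide ((u a).getD i 0 = i))).head?) := by
    refine NPC.Poly.head? (NPC.Poly.filter (l := fun a => List.range (u a).length)
      (p := fun a i => !decide ((u a).getD i 0 = i)) hr ?_)
    exact NPC.Poly.not (NPC.Poly.decide_eq (NPC.Poly.getD (hu.comp (NPC.Poly.fst NPC.Poly.id))
      (NPC.Poly.snd NPC.Poly.id) (NPC.Poly.const 0)) (NPC.Poly.snd NPC.Poly.id))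
  refine (NPC.Poly.optCases (g := fun _ => (none : Option (ℕ × ℕ)))
    (h := fun a i => some (i, (u a).getD i 0)) h1 (NPC.Poly.const _) (NPC.Poly.some
    (NPC.Poly.pair (NPC.Poly.snd NPC.Poly.id) (NPC.Poly.getD (hu.comp (NPC.Poly.fst NPC.Poly.id))
      (NPC.Poly.snd NPC.Poly.id) (NPC.Poly.const 0))))).congr fun a => ?_
  unfold key
  cases ((List.range (u a).length).filter (fun i => !decide ((u a).getD i 0 = i))).head? <;> rfl

theorem stp_poly {T : α → List (List ℕ)} {u : α → List ℕ} (hT : Poly T) (hu : Poly u) :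
    Poly (fun a => stp (T a) (u a)) := by
  have h1 : Poly (fun a => (T a).filter (fun τ => decide (key τ = key (u a)))) :=
    NPC.Poly.filter (l := T) (p := fun a τ => decide (key τ = key (u a))) hT
      (NPC.Poly.decide_eq (key_poly (NPC.Poly.snd NPC.Poly.id))
        (key_poly (hu.comp (NPC.Poly.fst NPC.Poly.id))))
  refine (NPC.Poly.listCases (g := fun a => u a) (h := fun a τ _ => cmp (ivl τ) (u a)) h1 hu
    (cmp_poly (ivl_poly (NPC.Poly.fst (NPC.Poly.snd NPC.Poly.id)))
      (hu.comp (NPC.Poly.fst NPC.Poly.id)))).congr fun a => ?_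
  unfold stp
  cases (T a).filter (fun τ => decide (key τ = key (u a))) <;> rfl

/-- Lists with bounded length and entries. -/
def Good (B : ℕ) (v : List ℕ) : Prop := v.length ≤ B ∧ ∀ e ∈ v, sz e ≤ 4 * B + 1

theorem Good.sz_le {B : ℕ} {v : List ℕ} (h : Good B v) : sz v ≤ B * (4 * B + 2) + 1 := by
  have h1 := sz_le_length_mul v (4 * B + 1) h.2
  have h2 : v.length * (4 * B + 1 + 1) ≤ B * (4 * B + 2) := Nat.mul_le_mul h.1 le_rfl
  omega

theorem good_of_sz {B : ℕ} {v : List ℕ} (h : sz v ≤ B) : Good B v := by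
  refine ⟨by have := length_lt_sz v; omega, fun e he => ?_⟩
  have := sz_le_of_mem he
  omega

theorem ivl_le (τ : List ℕ) : ∀ e ∈ ivl τ, e ≤ τ.length := by
  intro e he
  unfold ivl at he
  obtain ⟨j, _, rfl⟩ := List.mem_map.1 he
  rcases hc : (List.range τ.length).filter (fun i => decide (τ.getD i 0 = j)) with _ | ⟨t, ts⟩
  · simp
  · have h2 : t ∈ (List.range τ.length).filter (fun i => decide (τ.getD i 0 = j)) := by
      rw [hc]; simp
    have h3 := List.mem_range.1 (List.mem_filter.1 h2).1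
    simp only [List.head?_cons, Option.getD_some]
    omega

theorem good_cmp {B : ℕ} {τ u : List ℕ} (hτ : Good B τ) (hu : Good B u) :
    Good B (cmp (ivl τ) u) := by
  refine ⟨by simpa [cmp] using hu.1, fun e he => ?_⟩
  unfold cmp at he
  obtain ⟨j, _, rfl⟩ := List.mem_map.1 he
  have h1 : (ivl τ).getD j 0 ≤ B := by
    rcases Nat.lt_or_ge j (ivl τ).length with hj | hj
    · rw [List.getD_eq_getElem _ _ hj]
      exact (ivl_le τ _ (List.getElem_mem hj)).trans hτ.1
    · rw [List.getD_eq_default _ _ hj]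
      exact Nat.zero_le _
  have h2 := sz_nat_le ((ivl τ).getD j 0)
  have h3 := NPC.Poly.size_le_self ((ivl τ).getD j 0)
  omega

theorem good_stp {B : ℕ} {T : List (List ℕ)} {u : List ℕ} (hT : ∀ τ ∈ T, Good B τ)
    (hu : Good B u) : Good B (stp T u) := by
  unfold stp
  rcases hc : T.filter (fun τ => decide (key τ = key u)) with _ | ⟨t, ts⟩
  · exact hu
  · have h1 : t ∈ T.filter (fun τ => decide (key τ = key u)) := by rw [hc]; simp
    exact good_cmp (hT t (List.mem_filter.1 h1).1) hu

theorem good_iter {B : ℕ} {T : List (List ℕ)} {u : List ℕ} (hT : ∀ τ ∈ T, Good B τ)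
    (hu : Good B u) : ∀ k : ℕ, Good B ((stp T)^[k] u) := by
  intro k
  induction k with
  | zero => exact hu
  | succ k ih =>
    rw [Function.iterate_succ_apply']
    exact good_stp hT ih

theorem good_tbl {B : ℕ} : ∀ (l T : List (List ℕ)), (∀ τ ∈ T, Good B τ) → (∀ τ ∈ l, Good B τ) →
    (∀ τ ∈ tbl T l, Good B τ) ∧ (tbl T l).length ≤ T.length + l.length := by
  intro l
  induction l with
  | nil => intro T hT _; exact ⟨hT, by simp [tbl]⟩
  | cons u l ih =>
    intro T hT hl
    have h1 : ∀ τ ∈ ins T u, Good B τ := by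
      unfold ins
      split_ifs
      · exact hT
      · intro τ hτ
        rcases List.mem_cons.1 hτ with rfl | hτ
        · exact good_iter hT (hl u (by simp)) _
        · exact hT τ hτ
    have h2 : (ins T u).length ≤ T.length + 1 := by
      unfold ins
      split_ifs <;> simp
    obtain ⟨h3, h4⟩ := ih (ins T u) h1 fun τ hτ => hl τ (by simp [hτ])
    refine ⟨h3, ?_⟩
    show (tbl (ins T u) l).length ≤ _
    rw [List.length_cons]
    omega

theorem sft_poly {T : α → List (List ℕ)} {u : α → List ℕ} (hT : Poly T) (hu : Poly u) :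
    Poly (fun a => sft (T a) (u a)) := by
  obtain ⟨r1, h1⟩ := hT.sz_le
  obtain ⟨r2, h2⟩ := hu.sz_le
  refine NPC.Poly.iterLen (l := u) (s := u) (F := fun a s => stp (T a) s) hu hu
    (stp_poly (hT.comp (NPC.Poly.fst NPC.Poly.id)) (NPC.Poly.snd NPC.Poly.id))
    ((r1 + r2) * (Polynomial.C 4 * (r1 + r2) + 2) + 1) fun a k _ => ?_
  have h3 := h1 a
  have h4 := h2 a
  have h5 : ∀ τ ∈ T a, Good (r1.eval (sz a) + r2.eval (sz a)) τ := fun τ hτ =>
    good_of_sz (by have := sz_le_of_mem hτ; omega)
  have h6 := (good_iter h5 (good_of_sz (v := u a) (by omega)) k).sz_le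
  simp only [Polynomial.eval_add, Polynomial.eval_mul, Polynomial.eval_C, Polynomial.eval_ofNat,
    Polynomial.eval_one]
  exact h6

theorem ins_poly {T : α → List (List ℕ)} {u : α → List ℕ} (hT : Poly T) (hu : Poly u) :
    Poly (fun a => ins (T a) (u a)) := by
  have h1 := sft_poly hT hu
  exact NPC.Poly.ite (NPC.Poly.decide_eq (key_poly h1) (NPC.Poly.const none)) hT
    (NPC.Poly.cons h1 hT)

theorem tbl_poly {l : α → List (List ℕ)} (hl : Poly l) : Poly (fun a => tbl [] (l a)) := by
  obtain ⟨r, hr⟩ := hl.sz_le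
  refine NPC.Poly.foldl (l := l) (s := fun _ => ([] : List (List ℕ))) (F := fun _ T u => ins T u)
    hl (NPC.Poly.const _) (ins_poly (NPC.Poly.fst (NPC.Poly.snd NPC.Poly.id))
      (NPC.Poly.snd (NPC.Poly.snd NPC.Poly.id)))
    (r * (r * (Polynomial.C 4 * r + 2) + 2) + 1) fun a k _ => ?_
  have h1 := hr a
  have h2 : ∀ τ ∈ (l a).take k, Good (r.eval (sz a)) τ := fun τ hτ =>
    good_of_sz (by have := sz_le_of_mem (List.mem_of_mem_take hτ); omega)
  obtain ⟨h3, h4⟩ := good_tbl ((l a).take k) [] (fun τ hτ => by simp at hτ) h2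
  have h5 : ((l a).take k).length ≤ r.eval (sz a) := by
    have := length_lt_sz (l a)
    rw [List.length_take]
    omega
  have h6 := sz_le_length_mul (tbl [] ((l a).take k)) (r.eval (sz a) * (4 * r.eval (sz a) + 2) + 1)
    fun τ hτ => (h3 τ hτ).sz_le
  simp only [Polynomial.eval_add, Polynomial.eval_mul, Polynomial.eval_C, Polynomial.eval_ofNat,
    Polynomial.eval_one]
  refine h6.trans (Nat.add_le_add_right (Nat.mul_le_mul ?_ le_rfl) 1)
  rw [List.length_nil] at h4
  omega

variable {β : Type} [TEnc β]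

theorem bix_poly {v : α → β → List ℕ} {s : α → ℕ} {J : α → List β}
    (hv : Poly (fun p : α × β => v p.1 p.2)) (hs : Poly s) (hJ : Poly J) :
    Poly (fun a => bix (v a) (s a) (J a)) := by
  have hl := UPoly.length hJ
  refine NPC.Poly.optGetD (NPC.Poly.head? (NPC.Poly.filter
    (l := fun a => List.range ((J a).length + 1))
    (p := fun a i => decide (i + s a ≤ (J a).length) &&
      decide ((tbl [] (((J a).take i).map (v a))).length =
        (tbl [] (((J a).take (i + s a)).map (v a))).length))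
    (hl.add (UPoly.const 1)).range ?_)) (NPC.Poly.const 0)
  have e1 : Poly (fun q : α × ℕ => q.1) := NPC.Poly.fst NPC.Poly.id
  have e2 : Poly (fun q : α × ℕ => q.2) := NPC.Poly.snd NPC.Poly.id
  have e3 : Poly (fun q : α × ℕ => q.2 + s q.1) := NPC.Poly.add e2 (hs.comp e1)
  have f1 : ∀ {n : α × ℕ → ℕ}, Poly n → Poly (fun q : α × ℕ =>
      (tbl [] (((J q.1).take (n q)).map (v q.1))).length) := by
    intro n hn
    refine NPC.Poly.length (tbl_poly (NPC.Poly.map
      (l := fun q : α × ℕ => (J q.1).take (n q)) (F := fun q y => v q.1 y)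
      (take_poly' (hJ.comp e1) hn) ?_))
    exact hv.comp (NPC.Poly.pair (NPC.Poly.fst (NPC.Poly.fst NPC.Poly.id))
      (NPC.Poly.snd NPC.Poly.id))
  exact NPC.Poly.and (NPC.Poly.decide_le e3 (NPC.Poly.length (hJ.comp e1)))
    (NPC.Poly.decide_eq (f1 e2) (f1 e3))

theorem blk_poly {v : α → β → List ℕ} {s : α → ℕ} {J : α → List β}
    (hv : Poly (fun p : α × β => v p.1 p.2)) (hs : Poly s) (hJ : Poly J) :
    Poly (fun a => blk (v a) (s a) (J a)) :=
  take_poly' (drop_poly' hJ (bix_poly hv hs hJ)) hs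

theorem blb_poly {v : α → β → List ℕ} {s : α → ℕ} {J : α → List β}
    (hv : Poly (fun p : α × β => v p.1 p.2)) (hs : Poly s) (hJ : Poly J) :
    Poly (fun a => blb (v a) (s a) (J a)) :=
  NPC.Poly.reverse (blk_poly hv hs (NPC.Poly.reverse hJ))

theorem run_poly {v : ℕ → α → β → List ℕ} {R : α → ℕ} {J : α → List β}
    (hv : ∀ p, Poly (fun q : α × β => v p q.1 q.2)) (hR : Poly R) (hJ : Poly J) (k : ℕ) :
    ∀ p : ℕ, Poly (fun a => run (fun p => v p a) (R a) k p (J a)) := by
  intro p
  induction p with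
  | zero => exact hJ
  | succ p ih =>
    have hs : Poly (fun a => 2 * R a ^ (k - 1 - p)) :=
      NPC.Poly.mul (NPC.Poly.const 2) (pow_polyc hR _)
    by_cases h : p % 2 = 0
    · exact (blk_poly (hv p) hs ih).congr fun a => by rw [run, if_pos h]
    · exact (blb_poly (hv p) hs ih).congr fun a => by rw [run, if_neg h]

end poly

end Pool.Agent.TH682.GD
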