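import Pool.Agent.TH682.GD.Perm

/-!
# Blocks without insertions, and the exclusion of a node
-/

set_option autoImplicit false

namespace Pool.Agent.TH682.GD

open Classical in
/-- The number of leading permutations in `H`. -/
noncomputable def lead {N : ℕ} (H : Subgroup (Equiv.Perm (Fin N)))
    (ps : List (Equiv.Perm (Fin N))) : ℕ :=
  (ps.takeWhile (fun σ => decide (σ ∈ H))).length

theorem lead_all {N : ℕ} {H : Subgroup (Equiv.Perm (Fin N))} {ps : List (Equiv.Perm (Fin N))}
    (h : ∀ σ ∈ ps, σ ∈ H) : lead H ps = ps.length := by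
  classical
  unfold lead
  rw [List.takeWhile_eq_self_iff.2 fun σ hσ => by simpa using h σ hσ]

theorem lead_eq {N : ℕ} {H : Subgroup (Equiv.Perm (Fin N))} : ∀ {ps : List (Equiv.Perm (Fin N))}
    {p : ℕ} (hp : p < ps.length), (∀ (q : ℕ) (hq : q < p), ps[q]'(hq.trans hp) ∈ H) →
    ps[p] ∉ H → lead H ps = p := by
  classical
  intro ps
  induction ps with
  | nil => intro p hp; simp at hp
  | cons σ ps ih =>
    intro p hp h1 h2
    rcases p with _ | p
    · unfold lead
      rw [List.takeWhile_cons]
      simp only [List.getElem_cons_zero] at h2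
      simp [h2]
    · have h3 : σ ∈ H := h1 0 (by omega)
      have h4 := ih (p := p) (by simpa using hp) (fun q hq => by
        have := h1 (q + 1) (by omega)
        simpa using this) (by simpa using h2)
      unfold lead at h4 ⊢
      rw [List.takeWhile_cons]
      simp [h3, h4]

section blk

variable {α : Type}

/-- The start of a block of length `s` without insertions. -/
def bix (v : α → List ℕ) (s : ℕ) (J : List α) : ℕ :=
  (((List.range (J.length + 1)).filter (fun i => decide (i + s ≤ J.length) &&
    decide ((tbl [] ((J.take i).map v)).length =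
      (tbl [] ((J.take (i + s)).map v)).length))).head?).getD 0

/-- A block of length `s` without insertions. -/
def blk (v : α → List ℕ) (s : ℕ) (J : List α) : List α := (J.drop (bix v s J)).take s

/-- A block of length `s` without insertions from the right. -/
def blb (v : α → List ℕ) (s : ℕ) (J : List α) : List α := (blk v s J.reverse).reverse

/-- Nested blocks. -/
def run (v : ℕ → α → List ℕ) (R k : ℕ) : ℕ → List α → List α
  | 0, J => J
  | p + 1, J => if p % 2 = 0 then blk (v p) (2 * R ^ (k - 1 - p)) (run v R k p J)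
      else blb (v p) (2 * R ^ (k - 1 - p)) (run v R k p J)

theorem exists_block {N : ℕ} (ps : List (Equiv.Perm (Fin N))) {s R : ℕ} (hR : N ^ 2 < R)
    (hJ : R * s ≤ ps.length) : ∃ i : ℕ, i + s ≤ ps.length ∧
      (tbl [] ((ps.take i).map vals)).length = (tbl [] ((ps.take (i + s)).map vals)).length := by
  by_contra hcon
  push Not at hcon
  have h1 : ∀ c : ℕ, c ≤ R → c ≤ (tbl [] ((ps.take (c * s)).map vals)).length := by
    intro c
    induction c with
    | zero => intro _; omega
    | succ c ih =>
      intro hc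
      have h2 := ih (by omega)
      have h3 : c * s + s ≤ ps.length := by
        calc c * s + s = (c + 1) * s := by ring
          _ ≤ R * s := Nat.mul_le_mul_right _ hc
          _ ≤ _ := hJ
      have h4 := hcon (c * s) h3
      have h5 : (c + 1) * s = c * s + s := by ring
      rw [h5]
      have h6 : ps.take (c * s + s) = ps.take (c * s) ++ (ps.drop (c * s)).take s :=
        List.take_add
      have h7 := (tbl_spec ((ps.drop (c * s)).take s) (tbl [] ((ps.take (c * s)).map vals))
        (tbl_spec (ps.take (c * s)) [] (tab_nil N)).1).2.1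
      rw [← tbl_append, ← List.map_append, ← h6] at h7
      omega
  have h2 := h1 R le_rfl
  have h3 := tab_length_le (tbl_spec (ps.take (R * s)) [] (tab_nil N)).1
  omega

theorem blk_spec {N : ℕ} {v : α → List ℕ} {s R : ℕ} {J : List α} (hR : N ^ 2 < R)
    (hJ : R * s ≤ J.length) (hv : ∀ y ∈ J, ∃ σ : Equiv.Perm (Fin N), vals σ = v y) :
    ∃ A B : List α, J = A ++ blk v s J ++ B ∧ (blk v s J).length = s ∧
      ∀ H : Subgroup (Equiv.Perm (Fin N)), (∀ y ∈ A, InH H (v y)) →
        ∀ y ∈ blk v s J, InH H (v y) := by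
  classical
  choose! f hf using hv
  have hmap : ∀ J' : List α, (∀ y ∈ J', y ∈ J) → J'.map v = (J'.map f).map vals := by
    intro J' h
    rw [List.map_map]
    exact List.map_congr_left fun y hy => (hf y (h y hy)).symm
  obtain ⟨i, hi1, hi2⟩ := exists_block (J.map f) hR (by simpa using hJ)
  rw [List.length_map] at hi1
  rw [← List.map_take, ← List.map_take, ← hmap _ (fun y hy => List.mem_of_mem_take hy),
    ← hmap _ (fun y hy => List.mem_of_mem_take hy)] at hi2
  set P : ℕ → Bool := fun i => decide (i + s ≤ J.length) &&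
    decide ((tbl [] ((J.take i).map v)).length =
      (tbl [] ((J.take (i + s)).map v)).length) with hP
  have h1 : i ∈ (List.range (J.length + 1)).filter P := by
    refine List.mem_filter.2 ⟨List.mem_range.2 (by omega), ?_⟩
    rw [hP]
    simp only [Bool.and_eq_true, decide_eq_true_eq]
    exact ⟨hi1, hi2⟩
  have h2 : bix v s J ∈ (List.range (J.length + 1)).filter P := by
    unfold bix
    rcases hc : (List.range (J.length + 1)).filter P with _ | ⟨t, ts⟩
    · rw [hc] at h1
      simp at h1
    · simp
  have h3 := (List.mem_filter.1 h2).2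
  rw [hP] at h3
  simp only [Bool.and_eq_true, decide_eq_true_eq] at h3
  obtain ⟨h3, h4⟩ := h3
  set j := bix v s J with hj
  refine ⟨J.take j, J.drop (j + s), ?_, ?_, fun H hH y hy => ?_⟩
  · unfold blk
    rw [← hj, ← List.take_add, List.take_append_drop]
  · unfold blk
    rw [← hj, List.length_take, List.length_drop]
    omega
  · have h5 : J.take (j + s) = J.take j ++ (J.drop j).take s := List.take_add
    have h6 : ∀ y ∈ (J.drop j).take s, y ∈ J := fun y hy =>
      List.mem_of_mem_drop (List.mem_of_mem_take hy)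
    rw [h5, List.map_append, tbl_append, hmap _ (fun y hy => List.mem_of_mem_take hy),
      hmap _ h6] at h4
    obtain ⟨t1, t2, t3, t4⟩ := tbl_spec ((J.take j).map f) [] (tab_nil N)
    obtain ⟨u1, u2, u3, u4⟩ := tbl_spec (((J.drop j).take s).map f) _ t1
    have h7 := t3 H (fun v hv => by simp at hv) (fun σ hσ => by
      obtain ⟨z, hz, rfl⟩ := List.mem_map.1 hσ
      have h8 := hH z hz
      rw [← hf z (List.mem_of_mem_take hz)] at h8
      exact inH_vals.1 h8)
    have h8 := u4 h4.symm H h7
    have hy' : y ∈ (J.drop j).take s := hy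
    rw [← hf y (h6 y hy')]
    exact inH_vals.2 (h8 (f y) (List.mem_map.2 ⟨y, hy', rfl⟩))

theorem blb_spec {N : ℕ} {v : α → List ℕ} {s R : ℕ} {J : List α} (hR : N ^ 2 < R)
    (hJ : R * s ≤ J.length) (hv : ∀ y ∈ J, ∃ σ : Equiv.Perm (Fin N), vals σ = v y) :
    ∃ A B : List α, J = A ++ blb v s J ++ B ∧ (blb v s J).length = s ∧
      ∀ H : Subgroup (Equiv.Perm (Fin N)), (∀ y ∈ B, InH H (v y)) →
        ∀ y ∈ blb v s J, InH H (v y) := by
  obtain ⟨A, B, h1, h2, h3⟩ := blk_spec (J := J.reverse) hR (by simpa using hJ)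
    (fun y hy => hv y (List.mem_reverse.1 hy))
  refine ⟨B.reverse, A.reverse, ?_, ?_, fun H hH y hy => ?_⟩
  · have h4 := congrArg List.reverse h1
    rw [List.reverse_reverse, List.reverse_append, List.reverse_append] at h4
    unfold blb
    rw [← List.append_assoc] at h4
    exact h4
  · unfold blb
    rw [List.length_reverse]
    exact h2
  · unfold blb at hy
    exact h3 H (fun z hz => hH z (List.mem_reverse.2 hz)) y (List.mem_reverse.1 hy)

/-- **Exclusion of a node.** -/
theorem run_inv {N k R M : ℕ} {H : Subgroup (Equiv.Perm (Fin N))} {v : ℕ → α → List ℕ}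
    {val : α → ℕ} {J : List α} (hJs : J.Pairwise (fun a b => val a < val b))
    (hit : ∀ y ∈ J, ∃ ps : List (Equiv.Perm (Fin N)), ps.length = k ∧
      (∀ (p : ℕ) (hp : p < ps.length), v p y = vals ps[p]) ∧ (val y ≤ M ↔ Odd (lead H ps)))
    (hJ : 2 * R ^ k ≤ J.length) (hR : k ≠ 0 → N ^ 2 < R) {y0 : α} (hy0 : val y0 = M) :
    ∀ p ≤ k, (run v R k p J) <:+: J ∧ 2 * R ^ (k - p) ≤ (run v R k p J).length ∧
      (y0 ∈ run v R k p J → ∀ z ∈ run v R k p J, ∀ q < p, InH H (v q z)) := by
  intro p
  induction p with
  | zero => exact fun _ => ⟨List.infix_refl _, by simpa [run] using hJ,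
      fun _ z _ q hq => absurd hq (Nat.not_lt_zero _)⟩
  | succ p ih =>
    intro hp
    obtain ⟨h1, h2, h3⟩ := ih (by omega)
    have hRp := hR (by omega)
    set Jp := run v R k p J with hJp
    have hsub : ∀ y ∈ Jp, y ∈ J := fun y hy => h1.subset hy
    have hpw : Jp.Pairwise (fun a b => val a < val b) := hJs.sublist h1.sublist
    have hv : ∀ y ∈ Jp, ∃ σ : Equiv.Perm (Fin N), vals σ = v p y := by
      intro y hy
      obtain ⟨ps, hps, hps2, _⟩ := hit y (hsub y hy)
      exact ⟨ps[p], (hps2 p (by omega)).symm⟩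
    have hlen : R * (2 * R ^ (k - 1 - p)) ≤ Jp.length := by
      refine le_trans (le_of_eq ?_) h2
      have : k - p = (k - 1 - p) + 1 := by omega
      rw [this, pow_succ]
      ring
    have hkey : ∀ z ∈ Jp, y0 ∈ Jp → (p % 2 = 0 → val z ≤ M) → (p % 2 ≠ 0 → M < val z) →
        InH H (v p z) := by
      intro z hz hy hz0 hz1
      obtain ⟨ps, hps, hps2, hps3⟩ := hit z (hsub z hz)
      have h4 := h3 hy z hz
      rw [hps2 p (by omega), inH_vals]
      by_contra hcon
      have h5 := lead_eq (H := H) (ps := ps) (p := p) (by omega) (fun q hq => by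
        have := h4 q hq
        rw [hps2 q (by omega), inH_vals] at this
        exact this) hcon
      rw [h5] at hps3
      rcases Nat.even_or_odd p with h6 | h6
      · have h7 := hz0 (Nat.even_iff.1 h6)
        exact (Nat.not_odd_iff_even.2 h6) (hps3.1 h7)
      · have h7 := hz1 (by rw [Nat.odd_iff.1 h6]; norm_num)
        have h8 := hps3.2 h6
        omega
    have hlen2 : 2 * R ^ (k - (p + 1)) = 2 * R ^ (k - 1 - p) := by
      congr 2
      omega
    by_cases hpar : p % 2 = 0
    · have hrun : run v R k (p + 1) J = blk (v p) (2 * R ^ (k - 1 - p)) Jp := by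
        rw [run, if_pos hpar]
      obtain ⟨A, B, h4, h5, h6⟩ := blk_spec hRp hlen hv
      rw [hrun]
      have h7 : blk (v p) (2 * R ^ (k - 1 - p)) Jp <:+: Jp := ⟨A, B, h4.symm⟩
      refine ⟨h7.trans h1, by rw [h5, hlen2], fun hy z hz q hq => ?_⟩
      have hyJ : y0 ∈ Jp := h7.subset hy
      rcases Nat.lt_or_ge q p with h8 | h8
      · exact h3 hyJ z (h7.subset hz) q h8
      · have h9 : q = p := by omega
        subst h9
        refine h6 H (fun a ha => ?_) z hz
        refine hkey a (by rw [h4]; simp [ha]) hyJ (fun _ => ?_) (fun h => absurd hpar h)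
        rw [h4, List.append_assoc, List.pairwise_append] at hpw
        have := hpw.2.2 a ha y0 (by simp [hy])
        omega
    · have hrun : run v R k (p + 1) J = blb (v p) (2 * R ^ (k - 1 - p)) Jp := by
        rw [run, if_neg hpar]
      obtain ⟨A, B, h4, h5, h6⟩ := blb_spec hRp hlen hv
      rw [hrun]
      have h7 : blb (v p) (2 * R ^ (k - 1 - p)) Jp <:+: Jp := ⟨A, B, h4.symm⟩
      refine ⟨h7.trans h1, by rw [h5, hlen2], fun hy z hz q hq => ?_⟩
      have hyJ : y0 ∈ Jp := h7.subset hy
      rcases Nat.lt_or_ge q p with h8 | h8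
      · exact h3 hyJ z (h7.subset hz) q h8
      · have h9 : q = p := by omega
        subst h9
        refine h6 H (fun a ha => ?_) z hz
        refine hkey a (by rw [h4]; simp [ha]) hyJ (fun h => absurd h hpar) (fun _ => ?_)
        rw [h4, List.pairwise_append] at hpw
        have := hpw.2.2 y0 (by simp [hy]) a ha
        omega

/-- The head of the last block is not the last node with label one. -/
theorem run_head {N k R M : ℕ} {H : Subgroup (Equiv.Perm (Fin N))} {v : ℕ → α → List ℕ}
    {val : α → ℕ} {J : List α} (hJs : J.Pairwise (fun a b => val a < val b))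
    (hit : ∀ y ∈ J, ∃ ps : List (Equiv.Perm (Fin N)), ps.length = k ∧
      (∀ (p : ℕ) (hp : p < ps.length), v p y = vals ps[p]) ∧ (val y ≤ M ↔ Odd (lead H ps)))
    (hJ : 2 * R ^ k ≤ J.length) (hR : k ≠ 0 → N ^ 2 < R) {y0 : α}
    (hy : (run v R k k J).head? = some y0) : val y0 ≠ M := by
  intro hy0
  obtain ⟨h1, h2, h3⟩ := run_inv hJs hit hJ hR hy0 k le_rfl
  rcases hc : run v R k k J with _ | ⟨z0, _ | ⟨z1, zs⟩⟩
  · rw [hc] at hy
    simp at hy
  · rw [hc] at h2
    simp at h2
  · rw [hc] at hy h1 h3
    simp only [List.head?_cons, Option.some.injEq] at hy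
    subst hy
    have h4 := h3 (by simp)
    have h5 : ∀ z ∈ z0 :: z1 :: zs, (val z ≤ M ↔ Odd k) := by
      intro z hz
      obtain ⟨ps, hps, hps2, hps3⟩ := hit z (h1.subset hz)
      have h6 : lead H ps = ps.length := lead_all fun σ hσ => by
        obtain ⟨q, hq, rfl⟩ := List.getElem_of_mem hσ
        have := h4 z hz q (by omega)
        rw [hps2 q hq, inH_vals] at this
        exact this
      rw [hps3, h6, hps]
    have h6 := h5 z0 (by simp)
    have h7 := h5 z1 (by simp)
    have h8 : val z0 < val z1 := by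
      have := hJs.sublist h1.sublist
      rw [List.pairwise_cons] at this
      exact this.1 z1 (by simp)
    rw [hy0] at h6
    have h9 := h7.2 (h6.1 le_rfl)
    omega

end blk

end Pool.Agent.TH682.GD
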