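import Pool.Agent.TH682.GD.Blk
import Pool.Agent.NPC.Classes

/-!
# Bounded nondeterminism and differences of permutation groups: definitions

Polynomial time is Mathlib's `Turing.TM2ComputableInPolyTime` (through `Pool.Agent.NPC.PolyTime`).
-/

set_option autoImplicit false

namespace Pool.Agent.TH682.GD

open Pool.Agent.NPC

/-- The class `NP_g`: languages with certificates of length at most `g n` for inputs of length `n`,
verifiable in polynomial time. -/
def InNPg (g : ℕ → ℕ) (L : Set (List Bool)) : Prop :=
  ∃ V : List Bool → List Bool, PolyTime V ∧
    ∀ x, x ∈ L ↔ ∃ w : List Bool, w.length ≤ g x.length ∧ V (pairBits x w) = [true]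

/-- Hardness for `NP_g` under polynomial-time many-one reductions. -/
def NPgHard (g : ℕ → ℕ) (A : Set (List Bool)) : Prop := ∀ L, InNPg g L → Reduces L A

/-- The set `A` is a difference of `k` nonuniform permutation groups: there are a function `f`,
computable in polynomial time, whose values are lists of `k` permutations (each given by the list of
its values) and, for every `n`, a number `a` (advice), at most `n ^ b + b`, a number `N` and a
subgroup `H` of the symmetric group on `N` points such that for all strings `x` of length at most
`n`, the number of the leading permutations of the list `f (x, 1 ^ n, a)` that are in `H` is odd if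
and only if `x ∈ A`. The group `H` is arbitrary, and may depend on `n` in any way; since `f` also
has `n` in unary, `N` may be any polynomial in `n`. -/
def GroupDiff (k : ℕ) (A : Set (List Bool)) : Prop :=
  ∃ (f : List Bool → List (List ℕ)) (b : ℕ), PolyTime (fun z => bits (f z)) ∧
    ∀ n : ℕ, ∃ a : ℕ, a ≤ n ^ b + b ∧ ∃ (N : ℕ) (H : Subgroup (Equiv.Perm (Fin N))),
      ∀ x : List Bool, x.length ≤ n → ∃ ps : List (Equiv.Perm (Fin N)), ps.length = k ∧
        f (bits (x, (List.replicate n true, a))) = ps.map vals ∧ (x ∈ A ↔ Odd (lead H ps))

end Pool.Agent.TH682.GD
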