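import Pool.Agent.TH682.GD.Defs
import Pool.Agent.TH682.GD.PolyG

/-!
# Left sets
-/

set_option autoImplicit false

namespace Pool.Agent.TH682.GD

open Pool.Agent.NPC Pool.Agent.H579R2.Spt

/-- The number with the binary digits `y`, the most significant digit first. -/
def nv (y : List Bool) : ℕ := valB y.reverse

theorem nv_append (u v : List Bool) : nv (u ++ v) = nv v + 2 ^ v.length * nv u := by
  unfold nv
  rw [List.reverse_append, valB_append, List.length_reverse]

theorem nv_lt (u : List Bool) : nv u < 2 ^ u.length := by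
  unfold nv
  have := valB_lt u.reverse
  rwa [List.length_reverse] at this

theorem nv_concat (u : List Bool) (b : Bool) : nv (u ++ [b]) = (if b then 1 else 0) + 2 * nv u := by
  rw [nv_append]
  simp [nv]

theorem nv_take_le {w w' : List Bool} (hl : w.length = w'.length) (h : nv w ≤ nv w') (ℓ : ℕ) :
    nv (w.take ℓ) ≤ nv (w'.take ℓ) := by
  by_contra hcon
  have h1 := nv_append (w.take ℓ) (w.drop ℓ)
  have h2 := nv_append (w'.take ℓ) (w'.drop ℓ)
  rw [List.take_append_drop] at h1 h2
  have h3 := nv_lt (w'.drop ℓ)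
  have h4 : (w.drop ℓ).length = (w'.drop ℓ).length := by
    rw [List.length_drop, List.length_drop, hl]
  rw [h4] at h1
  have h5 : nv (w'.take ℓ) + 1 ≤ nv (w.take ℓ) := by omega
  have h6 := Nat.mul_le_mul_left (2 ^ (w'.drop ℓ).length) h5
  rw [mul_add, mul_one] at h6
  omega

theorem nv_poly {α : Type} [TEnc α] {y : α → List Bool} (hy : Poly y) : Poly (fun a => nv (y a)) :=
  NPC.Poly.valBits (NPC.Poly.reverse hy)

/-- The left set of the verifier `V`, for certificates of length `t`. -/
def LeftP (V : List Bool → List Bool) (g : ℕ → ℕ) (q : List Bool × (ℕ × List Bool)) : Prop :=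
  q.2.1 ≤ g q.1.length ∧ ∃ w : List Bool, w.length = q.2.1 ∧ V (pairBits q.1 w) = [true] ∧
    nv q.2.2 ≤ nv (w.take q.2.2.length)

/-- Decoding of a query. -/
def dq (z : List Bool) : List Bool × (ℕ × List Bool) :=
  (unbits (List Bool × (ℕ × List Bool)) z).getD ([], (0, []))

theorem dq_bits (q : List Bool × (ℕ × List Bool)) : dq (bits q) = q := by
  rw [dq, unbits_bits]
  rfl

theorem dq_poly : Poly dq := NPC.Poly.optGetD poly_unbits (NPC.Poly.const _)

/-- The verifier of the left set. -/
def LV (V : List Bool → List Bool) (g : ℕ → ℕ) (r : List Bool × List Bool) : Bool :=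
  decide (bits (dq r.1) = r.1) && (decide ((dq r.1).2.1 ≤ g (dq r.1).1.length) &&
    (decide (r.2.length = (dq r.1).2.1) && (decide (V (pairBits (dq r.1).1 r.2) = [true]) &&
      decide (nv (dq r.1).2.2 ≤ nv (r.2.take (dq r.1).2.2.length)))))

theorem LV_poly {V : List Bool → List Bool} {g : ℕ → ℕ} (hV : Poly V)
    (hg : Poly (fun x : List Bool => g x.length)) : Poly (LV V g) := by
  have d0 : Poly (fun r : List Bool × List Bool => dq r.1) :=
    dq_poly.comp (NPC.Poly.fst NPC.Poly.id)
  have d1 := NPC.Poly.fst d0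
  have d2 := NPC.Poly.snd d0
  have d3 := NPC.Poly.fst d2
  have d4 := NPC.Poly.snd d2
  have e1 : Poly (fun r : List Bool × List Bool => r.1) := NPC.Poly.fst NPC.Poly.id
  have e2 : Poly (fun r : List Bool × List Bool => r.2) := NPC.Poly.snd NPC.Poly.id
  refine NPC.Poly.and (NPC.Poly.decide_eq (bits_poly.comp d0) e1) (NPC.Poly.and
    (NPC.Poly.decide_le d3 (hg.comp d1)) (NPC.Poly.and (NPC.Poly.decide_eq (NPC.Poly.length e2) d3)
      (NPC.Poly.and (NPC.Poly.decide_eq (hV.comp (Pool.Agent.H622R2.poly_pairBits d1 e2))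
        (NPC.Poly.const _)) (NPC.Poly.decide_le (nv_poly d4)
          (nv_poly (take_poly' e2 (NPC.Poly.length d4)))))))

/-- The left set is in `NP_g`. -/
theorem left_inNPg {V : List Bool → List Bool} {g : ℕ → ℕ} (hV : Poly V) (hmono : Monotone g)
    (hg : Poly (fun x : List Bool => g x.length)) : InNPg g (lang (LeftP V g)) := by
  refine ⟨fun z => [LV V g (unpair z)], polyTime_of_poly ((LV_poly hV hg).comp poly_unpair),
    fun z => ?_⟩
  simp only [unpair_pairBits, List.cons.injEq, and_true]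
  rw [mem_lang_iff]
  constructor
  · rintro ⟨q, hq, h1, w, h2, h3, h4⟩
    have hz : z = bits q := (bits_of_unbits hq).symm
    subst hz
    refine ⟨w, ?_, ?_⟩
    · rw [h2]
      refine h1.trans (hmono ?_)
      rw [bits_length]
      have h5 : sz q = sz q.1 + sz q.2 + 1 := sz_pair q.1 q.2
      have h6 := sz_listBool_ge q.1
      omega
    · unfold LV
      simp only [dq_bits, Bool.and_eq_true, decide_eq_true_eq]
      exact ⟨trivial, h1, h2, h3, h4⟩
  · rintro ⟨w, _, h⟩
    unfold LV at h
    simp only [Bool.and_eq_true, decide_eq_true_eq] at h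
    obtain ⟨h0, h1, h2, h3, h4⟩ := h
    refine ⟨dq z, ?_, h1, w, h2, h3, h4⟩
    rw [← h0, unbits_bits, dq_bits]

/-- The maximal certificate. -/
theorem exists_max {V : List Bool → List Bool} {x : List Bool} {t : ℕ}
    (h : ∃ w : List Bool, w.length = t ∧ V (pairBits x w) = [true]) :
    ∃ w : List Bool, w.length = t ∧ V (pairBits x w) = [true] ∧
      ∀ w' : List Bool, w'.length = t → V (pairBits x w') = [true] → nv w' ≤ nv w := by
  classical
  set P : ℕ → Prop := fun m => ∃ w : List Bool, w.length = t ∧ V (pairBits x w) = [true] ∧ nv w = m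
    with hP
  obtain ⟨w, hw1, hw2⟩ := h
  have h1 : nv w ≤ 2 ^ t := by
    have := nv_lt w
    rw [hw1] at this
    exact this.le
  obtain ⟨w', h2, h3, h4⟩ := Nat.findGreatest_spec (P := P) h1 ⟨w, hw1, hw2, rfl⟩
  refine ⟨w', h2, h3, fun w'' h5 h6 => ?_⟩
  rw [h4]
  refine Nat.le_findGreatest ?_ ⟨w'', h5, h6, rfl⟩
  have := nv_lt w''
  rw [h5] at this
  exact this.le

theorem leftP_iff {V : List Bool → List Bool} {g : ℕ → ℕ} {x : List Bool} {t : ℕ}
    (ht : t ≤ g x.length) {w : List Bool} (hw : w.length = t) (hV : V (pairBits x w) = [true])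
    (hmax : ∀ w' : List Bool, w'.length = t → V (pairBits x w') = [true] → nv w' ≤ nv w)
    (y : List Bool) : bits (x, (t, y)) ∈ lang (LeftP V g) ↔ nv y ≤ nv (w.take y.length) := by
  rw [bits_mem_lang]
  unfold LeftP
  simp only
  constructor
  · rintro ⟨_, w', h1, h2, h3⟩
    exact h3.trans (nv_take_le (h1.trans hw.symm) (hmax w' h1 h2) _)
  · intro h
    exact ⟨ht, w, hw, hV, h⟩

/-! ### The search -/

/-- The children of the nodes. -/
def chd (W : List (List Bool)) : List (List Bool) := W.flatMap (fun y => [y ++ [false], y ++ [true]])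

theorem chd_pairwise {W : List (List Bool)} (h : W.Pairwise (fun a b => nv a < nv b)) :
    (chd W).Pairwise (fun a b => nv a < nv b) := by
  unfold chd
  rw [List.pairwise_flatMap]
  refine ⟨fun y _ => ?_, h.imp ?_⟩
  · simp [nv_concat]
  · intro a b hab c hc d hd
    simp only [List.mem_cons, List.not_mem_nil, or_false] at hc hd
    rcases hc with rfl | rfl <;> rcases hd with rfl | rfl <;>
      simp only [nv_concat, if_true, Bool.false_eq_true, if_false] <;> omega

theorem mem_chd {W : List (List Bool)} {y : List Bool} (h : y ∈ W) (b : Bool) :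
    y ++ [b] ∈ chd W := by
  unfold chd
  rw [List.mem_flatMap]
  exact ⟨y, h, by cases b <;> simp⟩

theorem length_of_mem_chd {W : List (List Bool)} {n : ℕ} (h : ∀ y ∈ W, y.length ≤ n) :
    ∀ y ∈ chd W, y.length ≤ n + 1 := by
  intro y hy
  unfold chd at hy
  obtain ⟨z, hz, hy⟩ := List.mem_flatMap.1 hy
  have := h z hz
  simp only [List.mem_cons, List.not_mem_nil, or_false] at hy
  rcases hy with rfl | rfl <;> simp <;> omega

theorem length_eq_of_mem_chd {W : List (List Bool)} {n : ℕ} (h : ∀ y ∈ W, y.length = n) :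
    ∀ y ∈ chd W, y.length = n + 1 := by
  intro y hy
  unfold chd at hy
  obtain ⟨z, hz, hy⟩ := List.mem_flatMap.1 hy
  have := h z hz
  simp only [List.mem_cons, List.not_mem_nil, or_false] at hy
  rcases hy with rfl | rfl <;> simp [this]

/-- Remove one node. -/
def prn (v : ℕ → List Bool → List ℕ) (R k : ℕ) (J : List (List Bool)) : List (List Bool) :=
  if J.length < 2 * R ^ k then J
    else J.filter (fun y => !decide ((run v R k k J).head? = some y))

theorem prn_sublist (v : ℕ → List Bool → List ℕ) (R k : ℕ) (J : List (List Bool)) :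
    (prn v R k J).Sublist J := by
  unfold prn
  split_ifs
  · exact List.Sublist.refl _
  · exact List.filter_sublist

theorem iter_prn_sublist (v : ℕ → List Bool → List ℕ) (R k : ℕ) (J : List (List Bool)) :
    ∀ m : ℕ, ((prn v R k)^[m] J).Sublist J := by
  intro m
  induction m with
  | zero => exact List.Sublist.refl _
  | succ m ih =>
    rw [Function.iterate_succ_apply']
    exact (prn_sublist v R k _).trans ih

/-- One level of the search. -/
def lev (v : ℕ → List Bool → List ℕ) (R k : ℕ) (W : List (List Bool)) : List (List Bool) :=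
  ((prn v R k)^[(chd W).length] (chd W)).take (2 * R ^ k)

theorem lev_sublist (v : ℕ → List Bool → List ℕ) (R k : ℕ) (W : List (List Bool)) :
    (lev v R k W).Sublist (chd W) :=
  (List.take_sublist _ _).trans (iter_prn_sublist v R k _ _)

section correct

variable {N k R : ℕ} {H : Subgroup (Equiv.Perm (Fin N))} {v : ℕ → List Bool → List ℕ}
  {w : List Bool}

/-- Correctness of the data. -/
def Items (N k : ℕ) (H : Subgroup (Equiv.Perm (Fin N))) (v : ℕ → List Bool → List ℕ)
    (w : List Bool) : Prop :=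
  ∀ y : List Bool, y.length ≤ w.length → ∃ ps : List (Equiv.Perm (Fin N)), ps.length = k ∧
    (∀ (p : ℕ) (hp : p < ps.length), v p y = vals ps[p]) ∧
      (nv y ≤ nv (w.take y.length) ↔ Odd (lead H ps))

theorem prn_keep (hit : Items N k H v w) (hR : k ≠ 0 → N ^ 2 < R) {ℓ : ℕ} (hℓ : ℓ ≤ w.length)
    {J : List (List Bool)} (hJ : J.Pairwise (fun a b => nv a < nv b))
    (hlen : ∀ y ∈ J, y.length = ℓ) (hmem : w.take ℓ ∈ J) : w.take ℓ ∈ prn v R k J := by
  unfold prn
  split_ifs with h
  · exact hmem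
  · refine List.mem_filter.2 ⟨hmem, ?_⟩
    simp only [Bool.not_eq_true', decide_eq_false_iff_not]
    intro hhead
    refine run_head (N := N) (H := H) (M := nv (w.take ℓ)) hJ ?_ (not_lt.1 h) hR hhead rfl
    intro y hy
    obtain ⟨ps, h1, h2, h3⟩ := hit y (by rw [hlen y hy]; exact hℓ)
    rw [hlen y hy] at h3
    exact ⟨ps, h1, h2, h3⟩

theorem prn_lt (hit : Items N k H v w) (hR : k ≠ 0 → N ^ 2 < R) {ℓ : ℕ} (hℓ : ℓ ≤ w.length)
    (hR0 : 0 < R) {J : List (List Bool)} (hJ : J.Pairwise (fun a b => nv a < nv b))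
    (hlen : ∀ y ∈ J, y.length = ℓ) (h : ¬ J.length < 2 * R ^ k) :
    (prn v R k J).length < J.length := by
  have h0 := run_inv (N := N) (H := H) (M := nv (w.take ℓ)) (k := k) (R := R) (v := v) hJ
    (fun y hy => by
      obtain ⟨ps, h1, h2, h3⟩ := hit y (by rw [hlen y hy]; exact hℓ)
      rw [hlen y hy] at h3
      exact ⟨ps, h1, h2, h3⟩) (not_lt.1 h) hR (y0 := w.take ℓ) rfl k le_rfl
  obtain ⟨h1, h2, _⟩ := h0
  rw [Nat.sub_self, pow_zero] at h2
  rcases hc : run v R k k J with _ | ⟨z, zs⟩
  · rw [hc] at h2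
    simp at h2
  · unfold prn
    rw [if_neg h, hc]
    have hz : z ∈ J := h1.subset (by rw [hc]; simp)
    refine lt_of_le_of_ne (List.length_filter_le _ _) fun heq => ?_
    rw [List.length_filter_eq_length_iff] at heq
    have := heq z hz
    simp at this

theorem iter_prn_spec (hit : Items N k H v w) (hR : k ≠ 0 → N ^ 2 < R) {ℓ : ℕ}
    (hℓ : ℓ ≤ w.length) (hR0 : 0 < R) {J : List (List Bool)}
    (hJ : J.Pairwise (fun a b => nv a < nv b)) (hlen : ∀ y ∈ J, y.length = ℓ)
    (hmem : w.take ℓ ∈ J) : ∀ m : ℕ, w.take ℓ ∈ (prn v R k)^[m] J ∧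
      (((prn v R k)^[m] J).length < 2 * R ^ k ∨ ((prn v R k)^[m] J).length + m ≤ J.length) := by
  intro m
  induction m with
  | zero => exact ⟨hmem, Or.inr (by simp)⟩
  | succ m ih =>
    obtain ⟨ih1, ih2⟩ := ih
    rw [Function.iterate_succ_apply']
    set J' := (prn v R k)^[m] J with hJ'
    have hs : J'.Sublist J := iter_prn_sublist v R k J m
    have hpw := hJ.sublist hs
    have hlen' : ∀ y ∈ J', y.length = ℓ := fun y hy => hlen y (hs.subset hy)
    refine ⟨prn_keep hit hR hℓ hpw hlen' ih1, ?_⟩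
    by_cases hc : J'.length < 2 * R ^ k
    · left
      exact lt_of_le_of_lt (prn_sublist v R k J').length_le hc
    · right
      have h1 := prn_lt hit hR hℓ hR0 hpw hlen' hc
      rcases ih2 with ih2 | ih2
      · exact absurd ih2 hc
      · omega

theorem lev_spec (hit : Items N k H v w) (hR : k ≠ 0 → N ^ 2 < R) (hR0 : 0 < R) {ℓ : ℕ}
    (hℓ : ℓ + 1 ≤ w.length) {W : List (List Bool)} (hW : W.Pairwise (fun a b => nv a < nv b))
    (hlen : ∀ y ∈ W, y.length = ℓ) (hmem : w.take ℓ ∈ W) :
    (lev v R k W).Pairwise (fun a b => nv a < nv b) ∧ (∀ y ∈ lev v R k W, y.length = ℓ + 1) ∧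
      w.take (ℓ + 1) ∈ lev v R k W := by
  have h1 := chd_pairwise hW
  have h2 := length_eq_of_mem_chd hlen
  have h3 : w.take (ℓ + 1) ∈ chd W := by
    have : w.take (ℓ + 1) = w.take ℓ ++ [w[ℓ]] := by
      rw [List.take_concat_get']
    rw [this]
    exact mem_chd hmem _
  have hs := lev_sublist v R k W
  refine ⟨h1.sublist hs, fun y hy => h2 y (hs.subset hy), ?_⟩
  obtain ⟨h4, h5⟩ := iter_prn_spec hit hR hℓ hR0 h1 h2 h3 (chd W).length
  unfold lev
  rw [List.take_of_length_le]
  · exact h4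
  · rcases h5 with h5 | h5
    · exact h5.le
    · have : 0 < R ^ k := pow_pos hR0 k
      omega

/-- The leaves. -/
theorem leaves_spec (hit : Items N k H v w) (hR : k ≠ 0 → N ^ 2 < R) (hR0 : 0 < R) : ∀ ℓ : ℕ,
    ℓ ≤ w.length → ((lev v R k)^[ℓ] [[]]).Pairwise (fun a b => nv a < nv b) ∧
      (∀ y ∈ (lev v R k)^[ℓ] [[]], y.length = ℓ) ∧ w.take ℓ ∈ (lev v R k)^[ℓ] [[]] := by
  intro ℓ
  induction ℓ with
  | zero => intro _; exact ⟨by simp, by simp, by simp⟩
  | succ ℓ ih =>
    intro hℓ
    obtain ⟨h1, h2, h3⟩ := ih (by omega)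
    rw [Function.iterate_succ_apply']
    exact lev_spec hit hR hR0 hℓ h1 h2 h3

end correct

end Pool.Agent.TH682.GD
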