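import Mathlib

/-!
# Permutations as lists, and sifting
-/

set_option autoImplicit false

namespace Pool.Agent.TH682.GD

/-- The list of the values of a permutation. -/
def vals {N : ℕ} (σ : Equiv.Perm (Fin N)) : List ℕ := List.ofFn (fun i => (σ i : ℕ))

@[simp] theorem vals_length {N : ℕ} (σ : Equiv.Perm (Fin N)) : (vals σ).length = N := by
  simp [vals]

theorem vals_getElem {N : ℕ} (σ : Equiv.Perm (Fin N)) (i : ℕ) (h : i < (vals σ).length) :
    (vals σ)[i] = (σ ⟨i, by simpa using h⟩ : ℕ) := by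
  simp [vals]

theorem vals_getD {N : ℕ} (σ : Equiv.Perm (Fin N)) (i : Fin N) :
    (vals σ).getD i 0 = (σ i : ℕ) := by
  rw [List.getD_eq_getElem _ _ (by simp)]
  simp [vals]

theorem vals_injective {N : ℕ} : Function.Injective (vals (N := N)) := by
  intro σ τ h
  ext i
  rw [← vals_getD σ i, ← vals_getD τ i, h]

/-- Composition of lists of values. -/
def cmp (u v : List ℕ) : List ℕ := v.map (fun j => u.getD j 0)

/-- The inverse of a list of values. -/
def ivl (u : List ℕ) : List ℕ :=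
  (List.range u.length).map (fun j =>
    (((List.range u.length).filter (fun i => decide (u.getD i 0 = j))).head?).getD 0)

theorem cmp_vals {N : ℕ} (σ τ : Equiv.Perm (Fin N)) : cmp (vals σ) (vals τ) = vals (σ * τ) := by
  unfold cmp
  refine List.ext_getElem (by simp) fun i h1 h2 => ?_
  rw [List.getElem_map, vals_getElem, vals_getElem, vals_getD]
  rfl

theorem head?_filter_range {N : ℕ} (p : ℕ → Bool) (i : ℕ) (hi : i < N) (hp : p i = true)
    (h : ∀ j < i, p j = false) : ((List.range N).filter p).head? = some i := by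
  rw [List.head?_filter, List.find?_eq_some_iff_getElem]
  refine ⟨hp, i, by simpa using hi, by simp, fun j hj => ?_⟩
  simp [h j hj]

theorem ivl_vals {N : ℕ} (σ : Equiv.Perm (Fin N)) : ivl (vals σ) = vals σ⁻¹ := by
  unfold ivl
  refine List.ext_getElem (by simp) fun j h1 h2 => ?_
  rw [List.getElem_map, List.getElem_range, vals_getElem, vals_length]
  have hj : j < N := by simpa using h1
  have h3 : ((List.range N).filter (fun i => decide ((vals σ).getD i 0 = j))).head? =
      some ((σ⁻¹ ⟨j, hj⟩ : Fin N) : ℕ) := by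
    refine head?_filter_range _ _ (σ⁻¹ ⟨j, hj⟩).2 ?_ fun i hi => ?_
    · rw [vals_getD]
      simp
    · have hiN : i < N := lt_trans hi (σ⁻¹ ⟨j, hj⟩).2
      have h4 := vals_getD σ ⟨i, hiN⟩
      simp only at h4
      rw [h4, decide_eq_false_iff_not]
      intro h5
      have h6 : σ ⟨i, hiN⟩ = ⟨j, hj⟩ := Fin.ext h5
      have h7 : (⟨i, hiN⟩ : Fin N) = σ⁻¹ ⟨j, hj⟩ := by
        rw [← h6]
        simp
      rw [← h7] at hi
      exact lt_irrefl _ hi
  rw [h3]
  rfl

/-- The first point which is not fixed, with its image. -/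
def key (u : List ℕ) : Option (ℕ × ℕ) :=
  (((List.range u.length).filter (fun i => !decide (u.getD i 0 = i))).head?).map
    (fun i => (i, u.getD i 0))

theorem key_none {N : ℕ} (σ : Equiv.Perm (Fin N)) : key (vals σ) = none ↔ σ = 1 := by
  unfold key
  rw [Option.map_eq_none_iff, List.head?_eq_none_iff, List.filter_eq_nil_iff, vals_length]
  constructor
  · intro h
    ext i
    have h1 := h i (by simp)
    rw [vals_getD] at h1
    simpa using h1
  · rintro rfl i hi
    rw [List.mem_range] at hi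
    have := vals_getD (1 : Equiv.Perm (Fin N)) ⟨i, hi⟩
    simp only at this
    rw [this]
    simp

/-- The number of leading fixed points. -/
def Fix {N : ℕ} (σ : Equiv.Perm (Fin N)) (m : ℕ) : Prop := ∀ i : Fin N, (i : ℕ) < m → σ i = i

theorem key_some {N : ℕ} {σ : Equiv.Perm (Fin N)} {i v : ℕ} (h : key (vals σ) = some (i, v)) :
    ∃ (hi : i < N), Fix σ i ∧ (σ ⟨i, hi⟩ : ℕ) = v ∧ v ≠ i ∧ v < N := by
  unfold key at h
  rw [Option.map_eq_some_iff] at h
  obtain ⟨j, hj, hjv⟩ := h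
  rw [Prod.mk.injEq] at hjv
  obtain ⟨rfl, rfl⟩ := hjv
  rw [List.head?_filter, List.find?_eq_some_iff_getElem] at hj
  obtain ⟨h1, l, hl, h2, h3⟩ := hj
  rw [List.getElem_range] at h2
  subst h2
  rw [List.length_range, vals_length] at hl
  refine ⟨hl, fun i hi => ?_, ?_, ?_, ?_⟩
  · have := h3 i hi
    rw [List.getElem_range, vals_getD] at this
    simp only [Bool.not_not, decide_eq_true_eq] at this
    exact Fin.ext this
  · exact (vals_getD σ ⟨l, hl⟩).symm
  · simpa using h1
  · have := vals_getD σ ⟨l, hl⟩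
    simp only at this
    rw [this]
    exact (σ ⟨l, hl⟩).2

/-- One step of sifting. -/
def stp (T : List (List ℕ)) (u : List ℕ) : List ℕ :=
  match T.filter (fun τ => decide (key τ = key u)) with
  | [] => u
  | τ :: _ => cmp (ivl τ) u

/-- Sifting. -/
def sft (T : List (List ℕ)) (u : List ℕ) : List ℕ := (stp T)^[u.length] u

/-- `v` is the list of the values of a permutation in `H`. -/
def InH {N : ℕ} (H : Subgroup (Equiv.Perm (Fin N))) (v : List ℕ) : Prop := ∃ σ ∈ H, vals σ = v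

theorem inH_vals {N : ℕ} {H : Subgroup (Equiv.Perm (Fin N))} {σ : Equiv.Perm (Fin N)} :
    InH H (vals σ) ↔ σ ∈ H := by
  constructor
  · rintro ⟨τ, hτ, h⟩
    rwa [vals_injective h] at hτ
  · intro h
    exact ⟨σ, h, rfl⟩

/-- A table: all entries are permutations other than the identity, with different keys. -/
def Tab (N : ℕ) (T : List (List ℕ)) : Prop :=
  (∀ v ∈ T, ∃ σ : Equiv.Perm (Fin N), vals σ = v ∧ σ ≠ 1) ∧ (T.map key).Nodup

theorem stp_spec {N : ℕ} {T : List (List ℕ)} (hT : Tab N T) (σ : Equiv.Perm (Fin N)) (m : ℕ)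
    (hm : Fix σ m) : ∃ σ' : Equiv.Perm (Fin N), stp T (vals σ) = vals σ' ∧
      (∀ H : Subgroup (Equiv.Perm (Fin N)), (∀ v ∈ T, InH H v) → (σ ∈ H ↔ σ' ∈ H)) ∧
      ((key (vals σ) ∉ T.map key ∧ σ' = σ) ∨ Fix σ' (m + 1)) := by
  unfold stp
  rcases hf : T.filter (fun τ => decide (key τ = key (vals σ))) with _ | ⟨t, ts⟩
  · refine ⟨σ, rfl, fun H _ => Iff.rfl, Or.inl ⟨?_, rfl⟩⟩
    intro h
    obtain ⟨τ, hτ, hτk⟩ := List.mem_map.1 h
    have : τ ∈ T.filter (fun τ => decide (key τ = key (vals σ))) :=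
      List.mem_filter.2 ⟨hτ, by simpa using hτk⟩
    rw [hf] at this
    simp at this
  · have h1 : t ∈ T.filter (fun τ => decide (key τ = key (vals σ))) := by rw [hf]; simp
    obtain ⟨h2, h3⟩ := List.mem_filter.1 h1
    rw [decide_eq_true_eq] at h3
    obtain ⟨τ, rfl, hτ1⟩ := hT.1 t h2
    refine ⟨τ⁻¹ * σ, ?_, fun H hH => ?_, Or.inr ?_⟩
    · show cmp (ivl (vals τ)) (vals σ) = _
      rw [ivl_vals, cmp_vals]
    · have h4 : τ ∈ H := inH_vals.1 (hH _ h2)
      exact ((H.mul_mem_cancel_left (H.inv_mem h4))).symm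
    · have h4 : key (vals τ) ≠ none := fun h => hτ1 ((key_none τ).1 h)
      obtain ⟨⟨i, v⟩, hiv⟩ := Option.ne_none_iff_exists'.1 h4
      obtain ⟨hi, h5, h6, h7, h8⟩ := key_some hiv
      rw [hiv] at h3
      obtain ⟨hi', h5', h6', _, _⟩ := key_some h3.symm
      -- `m ≤ i`
      have hmi : m ≤ i := by
        by_contra hcon
        have := hm ⟨i, hi⟩ (by simpa using hcon)
        rw [this] at h6'
        exact h7 h6'.symm
      intro j hj
      rcases Nat.lt_or_ge (j : ℕ) i with h9 | h9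
      · show τ⁻¹ (σ j) = j
        rw [h5' j h9, Equiv.Perm.inv_eq_iff_eq, h5 j h9]
      · have h10 : (j : ℕ) = i := by omega
        have h11 : j = ⟨i, hi⟩ := Fin.ext h10
        show τ⁻¹ (σ j) = j
        rw [Equiv.Perm.inv_eq_iff_eq, h11]
        exact Fin.ext (h6'.trans h6.symm)

theorem sft_aux {N : ℕ} {T : List (List ℕ)} (hT : Tab N T) (σ : Equiv.Perm (Fin N)) : ∀ m : ℕ,
    ∃ σ' : Equiv.Perm (Fin N), (stp T)^[m] (vals σ) = vals σ' ∧
      (∀ H : Subgroup (Equiv.Perm (Fin N)), (∀ v ∈ T, InH H v) → (σ ∈ H ↔ σ' ∈ H)) ∧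
      (key (vals σ') ∉ T.map key ∨ Fix σ' m) := by
  intro m
  induction m with
  | zero => exact ⟨σ, rfl, fun _ _ => Iff.rfl, Or.inr fun i hi => absurd hi (Nat.not_lt_zero _)⟩
  | succ m ih =>
    obtain ⟨σ', h1, h2, h3⟩ := ih
    rw [Function.iterate_succ_apply', h1]
    rcases h3 with h3 | h3
    · obtain ⟨σ'', h4, h5, h6⟩ := stp_spec hT σ' 0 (fun i hi => absurd hi (Nat.not_lt_zero _))
      have h7 : stp T (vals σ') = vals σ' := by
        unfold stp
        have : T.filter (fun τ => decide (key τ = key (vals σ'))) = [] := by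
          rw [List.filter_eq_nil_iff]
          intro τ hτ
          rw [decide_eq_true_eq]
          intro h
          exact h3 (List.mem_map.2 ⟨τ, hτ, h⟩)
        rw [this]
      exact ⟨σ', h7, h2, Or.inl h3⟩
    · obtain ⟨σ'', h4, h5, h6⟩ := stp_spec hT σ' m h3
      refine ⟨σ'', h4, fun H hH => (h2 H hH).trans (h5 H hH), ?_⟩
      rcases h6 with ⟨h6, rfl⟩ | h6
      · exact Or.inl h6
      · exact Or.inr h6

theorem fix_all {N : ℕ} {σ : Equiv.Perm (Fin N)} (h : Fix σ N) : σ = 1 := by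
  ext i
  rw [h i i.2]
  rfl

/-- **Sifting.** -/
theorem sft_spec {N : ℕ} {T : List (List ℕ)} (hT : Tab N T) (σ : Equiv.Perm (Fin N)) :
    ∃ σ' : Equiv.Perm (Fin N), sft T (vals σ) = vals σ' ∧
      (∀ H : Subgroup (Equiv.Perm (Fin N)), (∀ v ∈ T, InH H v) → (σ ∈ H ↔ σ' ∈ H)) ∧
      (key (vals σ') ∉ T.map key ∨ σ' = 1) := by
  obtain ⟨σ', h1, h2, h3⟩ := sft_aux hT σ N
  refine ⟨σ', ?_, h2, h3.imp_right fix_all⟩
  unfold sft
  rw [vals_length]
  exact h1

/-- Insertion into a table. -/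
def ins (T : List (List ℕ)) (u : List ℕ) : List (List ℕ) :=
  if key (sft T u) = none then T else sft T u :: T

theorem ins_spec {N : ℕ} {T : List (List ℕ)} (hT : Tab N T) (σ : Equiv.Perm (Fin N)) :
    Tab N (ins T (vals σ)) ∧ T.length ≤ (ins T (vals σ)).length ∧
      (∀ H : Subgroup (Equiv.Perm (Fin N)), (∀ v ∈ T, InH H v) → σ ∈ H →
        ∀ v ∈ ins T (vals σ), InH H v) ∧
      ((ins T (vals σ)).length = T.length → ∀ H : Subgroup (Equiv.Perm (Fin N)),
        (∀ v ∈ T, InH H v) → σ ∈ H) := by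
  obtain ⟨σ', h1, h2, h3⟩ := sft_spec hT σ
  unfold ins
  rw [h1]
  by_cases h4 : key (vals σ') = none
  · rw [if_pos h4]
    have h5 : σ' = 1 := (key_none σ').1 h4
    refine ⟨hT, le_rfl, fun H hH _ => hH, fun _ H hH => (h2 H hH).2 ?_⟩
    rw [h5]
    exact H.one_mem
  · rw [if_neg h4]
    have h5 : σ' ≠ 1 := fun h => h4 ((key_none σ').2 h)
    have h6 : key (vals σ') ∉ T.map key := h3.resolve_right h5
    refine ⟨⟨fun v hv => ?_, ?_⟩, by simp, fun H hH hσ v hv => ?_, fun h => ?_⟩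
    · rcases List.mem_cons.1 hv with rfl | hv
      · exact ⟨σ', rfl, h5⟩
      · exact hT.1 v hv
    · rw [List.map_cons, List.nodup_cons]
      exact ⟨h6, hT.2⟩
    · rcases List.mem_cons.1 hv with rfl | hv
      · exact inH_vals.2 ((h2 H hH).1 hσ)
      · exact hH v hv
    · simp at h

theorem tab_length_le {N : ℕ} {T : List (List ℕ)} (hT : Tab N T) : T.length ≤ N ^ 2 := by
  have h1 : (T.map key).toFinset ⊆
      ((Finset.range N ×ˢ Finset.range N).image (fun p : ℕ × ℕ => some p)) := by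
    intro o ho
    rw [List.mem_toFinset, List.mem_map] at ho
    obtain ⟨v, hv, rfl⟩ := ho
    obtain ⟨σ, rfl, hσ⟩ := hT.1 v hv
    have h4 : key (vals σ) ≠ none := fun h => hσ ((key_none σ).1 h)
    obtain ⟨⟨i, w⟩, hiw⟩ := Option.ne_none_iff_exists'.1 h4
    obtain ⟨hi, _, _, _, h8⟩ := key_some hiw
    rw [hiw]
    refine Finset.mem_image.2 ⟨(i, w), ?_, rfl⟩
    rw [Finset.mem_product, Finset.mem_range, Finset.mem_range]
    exact ⟨hi, h8⟩
  have h2 := Finset.card_le_card h1
  rw [List.toFinset_card_of_nodup hT.2, List.length_map] at h2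
  refine h2.trans (Finset.card_image_le.trans (le_of_eq ?_))
  rw [Finset.card_product, Finset.card_range, sq]

/-- The table of a list. -/
def tbl (T : List (List ℕ)) (l : List (List ℕ)) : List (List ℕ) := l.foldl ins T

theorem tbl_append (T l l' : List (List ℕ)) : tbl T (l ++ l') = tbl (tbl T l) l' := by
  unfold tbl
  rw [List.foldl_append]

theorem tab_nil (N : ℕ) : Tab N [] := ⟨fun v hv => by simp at hv, by simp⟩

theorem tbl_spec {N : ℕ} : ∀ (ps : List (Equiv.Perm (Fin N))) (T : List (List ℕ)), Tab N T →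
    Tab N (tbl T (ps.map vals)) ∧ T.length ≤ (tbl T (ps.map vals)).length ∧
      (∀ H : Subgroup (Equiv.Perm (Fin N)), (∀ v ∈ T, InH H v) → (∀ σ ∈ ps, σ ∈ H) →
        ∀ v ∈ tbl T (ps.map vals), InH H v) ∧
      ((tbl T (ps.map vals)).length = T.length → ∀ H : Subgroup (Equiv.Perm (Fin N)),
        (∀ v ∈ T, InH H v) → ∀ σ ∈ ps, σ ∈ H) := by
  intro ps
  induction ps with
  | nil =>
    intro T hT
    exact ⟨hT, le_rfl, fun H hH _ => hH, fun _ H _ σ hσ => by simp at hσ⟩
  | cons σ ps ih =>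
    intro T hT
    obtain ⟨h1, h2, h3, h4⟩ := ins_spec hT σ
    obtain ⟨h5, h6, h7, h8⟩ := ih (ins T (vals σ)) h1
    have h9 : tbl T ((σ :: ps).map vals) = tbl (ins T (vals σ)) (ps.map vals) := rfl
    rw [h9]
    refine ⟨h5, h2.trans h6, fun H hH hps => ?_, fun h H hH => ?_⟩
    · exact h7 H (h3 H hH (hps σ (by simp))) fun τ hτ => hps τ (by simp [hτ])
    · have h10 : (ins T (vals σ)).length = T.length := by omega
      have h11 : σ ∈ H := h4 h10 H hH
      intro τ hτ
      rcases List.mem_cons.1 hτ with rfl | hτ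
      · exact h11
      · exact h8 (by omega) H (h3 H hH h11) τ hτ

end Pool.Agent.TH682.GD
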