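import Pool.Agent.TH682.GD.Left
import Pool.Agent.TH684.EX.Thm

/-!
# The search in the tree of prefixes
-/

set_option autoImplicit false

namespace Pool.Agent.TH682.GD

open Pool.Agent.NPC Pool.Agent.H579R2.Spt
open Pool.Agent.W901.FH (pow_polyc pow_upolyc)
open Pool.Agent.TH684.EX (poly_of_polyTime)

/-- The context of a search: input, length of the certificate, advice. -/
abbrev Ctx := List Bool × (ℕ × ℕ)

/-- The lists of permutations of a node. -/
def itm (f : List Bool → List (List ℕ)) (M : List Bool → ℕ) (c : Ctx) (y : List Bool) :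
    List (List ℕ) :=
  f (bits (bits (c.1, (c.2.1, y)), (List.replicate (M c.1) true, c.2.2)))

/-- The permutation number `p` of a node. -/
def vit (f : List Bool → List (List ℕ)) (M : List Bool → ℕ) (p : ℕ) (c : Ctx) (y : List Bool) :
    List ℕ :=
  (itm f M c y).getD p []

theorem vit_poly {f : List Bool → List (List ℕ)} (hf : Poly f) {M : List Bool → ℕ} (hM : UPoly M)
    (p : ℕ) : Poly (fun q : Ctx × List Bool => vit f M p q.1 q.2) := by
  have c0 : Poly (fun q : Ctx × List Bool => q.1) := NPC.Poly.fst NPC.Poly.id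
  have c1 := NPC.Poly.fst c0
  have c2 := NPC.Poly.snd c0
  have c3 := NPC.Poly.fst c2
  have c4 := NPC.Poly.snd c2
  have c5 : Poly (fun q : Ctx × List Bool => q.2) := NPC.Poly.snd NPC.Poly.id
  exact NPC.Poly.getD (hf.comp (bits_poly.comp (NPC.Poly.pair (bits_poly.comp
    (NPC.Poly.pair c1 (NPC.Poly.pair c3 c5))) (NPC.Poly.pair (replicate_true_poly (hM.comp c1))
      c4)))) (NPC.Poly.const p) (NPC.Poly.const [])

section poly

variable {α : Type} [TEnc α]

theorem chd_poly {W : α → List (List Bool)} (hW : Poly W) : Poly (fun a => chd (W a)) := by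
  refine NPC.Poly.flatMap (l := W) (F := fun _ y => [y ++ [false], y ++ [true]]) hW ?_
  have e : Poly (fun q : α × List Bool => q.2) := NPC.Poly.snd NPC.Poly.id
  exact NPC.Poly.cons (NPC.Poly.append e (NPC.Poly.const [false]))
    (NPC.Poly.cons (NPC.Poly.append e (NPC.Poly.const [true])) (NPC.Poly.const []))

variable {v : ℕ → α → List Bool → List ℕ} {R : α → ℕ}

theorem prn_poly (hv : ∀ p, Poly (fun q : α × List Bool => v p q.1 q.2)) (hR : Poly R)
    {J : α → List (List Bool)} (hJ : Poly J) (k : ℕ) :
    Poly (fun a => prn (fun p => v p a) (R a) k (J a)) := by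
  have h1 := run_poly hv hR hJ k k
  refine NPC.Poly.ite (NPC.Poly.decide_lt (NPC.Poly.length hJ)
    (NPC.Poly.mul (NPC.Poly.const 2) (pow_polyc hR k))) hJ (NPC.Poly.filter (l := J)
      (p := fun a y => !decide ((run (fun p => v p a) (R a) k k (J a)).head? = some y)) hJ ?_)
  exact NPC.Poly.not (NPC.Poly.decide_eq ((NPC.Poly.head? h1).comp (NPC.Poly.fst NPC.Poly.id))
    (NPC.Poly.some (NPC.Poly.snd NPC.Poly.id)))

theorem lev_poly (hv : ∀ p, Poly (fun q : α × List Bool => v p q.1 q.2)) (hR : Poly R)
    {W : α → List (List Bool)} (hW : Poly W) (k : ℕ) :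
    Poly (fun a => lev (fun p => v p a) (R a) k (W a)) := by
  have hc := chd_poly hW
  obtain ⟨r, hr⟩ := hc.sz_le
  refine take_poly' ?_ (NPC.Poly.mul (NPC.Poly.const 2) (pow_polyc hR k))
  refine NPC.Poly.iterLen (l := fun a => chd (W a)) (s := fun a => chd (W a))
    (F := fun a J => prn (fun p => v p a) (R a) k J) hc hc ?_ r fun a m _ => ?_
  · have e1 : Poly (fun q : α × List (List Bool) => q.1) := NPC.Poly.fst NPC.Poly.id
    refine prn_poly (v := fun p (q : α × List (List Bool)) => v p q.1)
      (R := fun q : α × List (List Bool) => R q.1) (fun p => ?_) (hR.comp e1)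
      (NPC.Poly.snd NPC.Poly.id) k
    exact (hv p).comp (NPC.Poly.pair (NPC.Poly.fst (NPC.Poly.fst NPC.Poly.id))
      (NPC.Poly.snd NPC.Poly.id))
  · exact (sz_le_of_sublist (iter_prn_sublist _ _ _ _ m)).trans (hr a)

end poly

/-- The leaves of the search. -/
def leaves (f : List Bool → List (List ℕ)) (M : List Bool → ℕ) (g : ℕ → ℕ) (R : List Bool → ℕ)
    (k : ℕ) (c : Ctx) : List (List Bool) :=
  (lev (fun p => vit f M p c) (R c.1) k)^[((List.range (g c.1.length)).take c.2.1).length] [[]]

theorem lev_iter_bound (v : ℕ → List Bool → List ℕ) (R k : ℕ) : ∀ m : ℕ,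
    (((lev v R k)^[m] [[]]).length ≤ 2 * R ^ k + 1) ∧
      ∀ y ∈ (lev v R k)^[m] [[]], y.length ≤ m := by
  intro m
  induction m with
  | zero => exact ⟨by simp, by simp⟩
  | succ m ih =>
    rw [Function.iterate_succ_apply']
    set W := (lev v R k)^[m] [[]] with hW
    refine ⟨?_, fun y hy => length_of_mem_chd ih.2 y ((lev_sublist v R k W).subset hy)⟩
    unfold lev
    rw [List.length_take]
    omega

theorem upoly_bound {α : Type} [TEnc α] {n : α → ℕ} (hn : UPoly n) :
    ∃ p : Polynomial ℕ, ∀ a, n a ≤ p.eval (sz a) := by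
  obtain ⟨p, hp⟩ := NPC.Poly.sz_le (show Poly (fun a => List.replicate (n a) ()) from hn)
  refine ⟨p, fun a => ?_⟩
  have h1 := hp a
  have h2 := length_lt_sz (List.replicate (n a) ())
  rw [List.length_replicate] at h2
  omega

section leavesPoly

attribute [local irreducible] vit lev

theorem leaves_step_poly {f : List Bool → List (List ℕ)} (hf : Poly f) {M : List Bool → ℕ}
    (hM : UPoly M) {R : List Bool → ℕ} (hR : Poly R) (k : ℕ) :
    Poly (fun q : Ctx × List (List Bool) =>
      lev (fun p => vit f M p q.1) (R q.1.1) k q.2) := by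
  have e2 : Poly (fun q : Ctx × List (List Bool) => q.2) := NPC.Poly.snd NPC.Poly.id
  have e3 : Poly (fun q : Ctx × List (List Bool) => R q.1.1) :=
    hR.comp (NPC.Poly.fst (NPC.Poly.fst NPC.Poly.id))
  have e4 : ∀ p, Poly (fun q : (Ctx × List (List Bool)) × List Bool => vit f M p q.1.1 q.2) := by
    intro p
    have e5 : Poly (fun q : (Ctx × List (List Bool)) × List Bool => (q.1.1, q.2)) :=
      NPC.Poly.pair (NPC.Poly.fst (NPC.Poly.fst NPC.Poly.id)) (NPC.Poly.snd NPC.Poly.id)
    exact NPC.Poly.comp (g := fun q : Ctx × List Bool => vit f M p q.1 q.2)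
      (f := fun q : (Ctx × List (List Bool)) × List Bool => (q.1.1, q.2)) (vit_poly hf hM p) e5
  exact lev_poly (α := Ctx × List (List Bool)) (v := fun p q => vit f M p q.1)
    (R := fun q => R q.1.1) (W := fun q => q.2) e4 e3 e2 k

theorem leaves_poly {f : List Bool → List (List ℕ)} (hf : Poly f) {M : List Bool → ℕ}
    (hM : UPoly M) {g : ℕ → ℕ}
    (hg : UPoly (fun x : List Bool => g x.length)) {R : List Bool → ℕ} (hR : UPoly R) (k : ℕ) :
    Poly (leaves f M g R k) := by
  have c1 : Poly (fun c : Ctx => c.1) := NPC.Poly.fst NPC.Poly.id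
  have c2 : Poly (fun c : Ctx => c.2.1) := NPC.Poly.fst (NPC.Poly.snd NPC.Poly.id)
  obtain ⟨pg, hpg⟩ := upoly_bound (hg.comp c1)
  obtain ⟨pr, hpr⟩ := upoly_bound (hR.comp c1)
  refine NPC.Poly.iterLen (l := fun c : Ctx => (List.range (g c.1.length)).take c.2.1)
    (s := fun _ => ([[]] : List (List Bool)))
    (F := fun (c : Ctx) W => lev (fun p => vit f M p c) (R c.1) k W)
    (take_poly' (hg.comp c1).range c2) (NPC.Poly.const _) (leaves_step_poly hf hM hR.toPoly k)
    ((Polynomial.C 2 * pr ^ k + 1) * (Polynomial.C 4 * pg + 2) + 1) fun c m hm => ?_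
  · obtain ⟨h1, h2⟩ := lev_iter_bound (fun p => vit f M p c) (R c.1) k m
    have h3 : m ≤ pg.eval (sz c) := by
      rw [List.length_take, List.length_range] at hm
      have := hpg c
      omega
    have h4 := sz_le_length_mul _ (4 * pg.eval (sz c) + 1) fun y hy => by
      have := h2 y hy
      have := sz_listBool_le y
      omega
    have h5 : R c.1 ^ k ≤ pr.eval (sz c) ^ k := Nat.pow_le_pow_left (hpr c) k
    simp only [Polynomial.eval_add, Polynomial.eval_mul, Polynomial.eval_C, Polynomial.eval_pow,
      Polynomial.eval_ofNat, Polynomial.eval_one]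
    refine h4.trans (Nat.add_le_add_right (Nat.mul_le_mul ?_ le_rfl) 1)
    omega

end leavesPoly

/-- **If the left set is a difference of permutation groups, then the set is in `P`.** -/
theorem inP_of_left {V : List Bool → List Bool} {g : ℕ → ℕ} (hV : Poly V)
    (hg : UPoly (fun x : List Bool => g x.length)) {k : ℕ}
    (h : GroupDiff k (lang (LeftP V g))) :
    InP {x | ∃ w : List Bool, w.length ≤ g x.length ∧ V (pairBits x w) = [true]} := by
  classical
  obtain ⟨f, b, hf, hG⟩ := h
  have hfp : Poly f := poly_of_polyTime hf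
  obtain ⟨q, hq⟩ := (hfp.comp (bits_poly (α := List Bool × (List Bool × ℕ)))).sz_le
  have hlen : UPoly (fun x : List Bool => x.length) := UPoly.length NPC.Poly.id
  set nn : List Bool → ℕ := fun x => 4 * x.length + 8 * g x.length + 5 with hnn
  have hnnU : UPoly nn := (((UPoly.const 4).mul hlen).add ((UPoly.const 8).mul hg)).add
    (UPoly.const 5)
  set AB : List Bool → ℕ := fun x => nn x ^ b + b with hAB
  have hABU : UPoly AB := (pow_upolyc hnnU b).add (UPoly.const b)
  set R : List Bool → ℕ := fun x => (q.eval (8 * nn x + 4 * AB x + 5)) ^ 2 + 1 with hR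
  have hRU : UPoly R := (pow_upolyc (((((UPoly.const 8).mul hnnU).add
    ((UPoly.const 4).mul hABU)).add (UPoly.const 5)).eval q) 2).add (UPoly.const 1)
  set D : List Bool → Bool := fun x => (List.range (g x.length + 1)).any (fun t =>
    (List.range (AB x + 1)).any (fun a => (leaves f nn g R k (x, (t, a))).any (fun w =>
      decide (V (pairBits x w) = [true]) && decide (w.length ≤ g x.length)))) with hD
  have hDp : Poly D := by
    refine NPC.Poly.any (l := fun x : List Bool => List.range (g x.length + 1))
      (p := fun x t => (List.range (AB x + 1)).any (fun a => (leaves f nn g R k (x, (t, a))).any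
        (fun w => decide (V (pairBits x w) = [true]) && decide (w.length ≤ g x.length))))
      (hg.add (UPoly.const 1)).range ?_
    have e1 : Poly (fun p : List Bool × ℕ => p.1) := NPC.Poly.fst NPC.Poly.id
    refine NPC.Poly.any (l := fun p : List Bool × ℕ => List.range (AB p.1 + 1))
      (p := fun p a => (leaves f nn g R k (p.1, (p.2, a))).any (fun w =>
        decide (V (pairBits p.1 w) = [true]) && decide (w.length ≤ g p.1.length)))
      ((hABU.add (UPoly.const 1)).range.comp e1) ?_
    have f1 : Poly (fun p : (List Bool × ℕ) × ℕ => p.1.1) :=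
      NPC.Poly.fst (NPC.Poly.fst NPC.Poly.id)
    have f2 : Poly (fun p : (List Bool × ℕ) × ℕ => p.1.2) :=
      NPC.Poly.snd (NPC.Poly.fst NPC.Poly.id)
    have f3 : Poly (fun p : (List Bool × ℕ) × ℕ => p.2) := NPC.Poly.snd NPC.Poly.id
    refine NPC.Poly.any (l := fun p : (List Bool × ℕ) × ℕ => leaves f nn g R k (p.1.1, (p.1.2, p.2)))
      (p := fun p w => decide (V (pairBits p.1.1 w) = [true]) &&
        decide (w.length ≤ g p.1.1.length))
      ((leaves_poly hfp hnnU hg hRU k).comp (NPC.Poly.pair f1 (NPC.Poly.pair f2 f3))) ?_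
    have h1 : Poly (fun p : ((List Bool × ℕ) × ℕ) × List Bool => p.1.1.1) :=
      f1.comp (NPC.Poly.fst NPC.Poly.id)
    have h2 : Poly (fun p : ((List Bool × ℕ) × ℕ) × List Bool => p.2) :=
      NPC.Poly.snd NPC.Poly.id
    exact NPC.Poly.and (NPC.Poly.decide_eq (hV.comp (Pool.Agent.H622R2.poly_pairBits h1 h2))
      (NPC.Poly.const _)) (NPC.Poly.decide_le (NPC.Poly.length h2) (hg.toPoly.comp h1))
  refine ⟨fun x => [D x], polyTime_of_poly hDp, fun x => ?_⟩
  simp only [Set.mem_ofPred_eq, List.cons.injEq, and_true]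
  constructor
  · rintro ⟨w0, hw0, hVw0⟩
    set t := w0.length with ht
    obtain ⟨w, hw1, hw2, hw3⟩ := exists_max (x := x) ⟨w0, rfl, hVw0⟩
    obtain ⟨a, ha, N, H, hx⟩ := hG (nn x)
    have hqlen : ∀ y : List Bool, y.length ≤ g x.length →
        (bits (x, (t, y))).length ≤ nn x := by
      intro y hy
      rw [bits_length, sz_pair, sz_pair]
      have h1 := sz_listBool_le x
      have h2 := sz_listBool_le y
      have h3 := sz_nat_le t
      have h4 := NPC.Poly.size_le_self t
      simp only [hnn]
      omega
    have hitems : Items N k H (fun p => vit f nn p (x, (t, a))) w := by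
      intro y hy
      obtain ⟨ps, h1, h2, h3⟩ := hx (bits (x, (t, y))) (hqlen y (by omega))
      refine ⟨ps, h1, fun p hp => ?_, ?_⟩
      · unfold vit itm
        simp only
        rw [h2, List.getD_eq_getElem _ _ (by simpa using hp), List.getElem_map]
      · rw [← h3, leftP_iff hw0 hw1 hw2 hw3]
    have hRN : k ≠ 0 → N ^ 2 < R x := by
      intro hk
      obtain ⟨ps, h1, h2, _⟩ := hx (bits (x, (t, ([] : List Bool)))) (hqlen [] (by simp))
      have h3 : 0 < ps.length := by omega
      have h4 : vals ps[0] ∈ ps.map vals := List.mem_map.2 ⟨_, List.getElem_mem h3, rfl⟩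
      have h5 := sz_le_of_mem h4
      have h6 := length_lt_sz (vals ps[0])
      rw [vals_length] at h6
      have h7 := hq (bits (x, (t, ([] : List Bool))), (List.replicate (nn x) true, a))
      rw [h2] at h7
      have h8 : sz ((bits (x, (t, ([] : List Bool))), (List.replicate (nn x) true, a)) :
          List Bool × (List Bool × ℕ)) ≤ 8 * nn x + 4 * AB x + 5 := by
        rw [sz_pair, sz_pair]
        have h9 := sz_listBool_le (bits (x, (t, ([] : List Bool))))
        have h10 := hqlen [] (by simp)
        have h11 := sz_nat_le a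
        have h12 := NPC.Poly.size_le_self a
        have h13 := sz_listBool_le (List.replicate (nn x) true)
        rw [List.length_replicate] at h13
        simp only [hAB]
        omega
      have h9 := eval_mono q h8
      have h10 : N ≤ q.eval (8 * nn x + 4 * AB x + 5) := by omega
      have h11 := Nat.pow_le_pow_left h10 2
      simp only [hR]
      omega
    have hR0 : 0 < R x := by simp only [hR]; omega
    obtain ⟨_, _, h3⟩ := leaves_spec hitems hRN hR0 w.length le_rfl
    rw [List.take_length] at h3
    rw [hD]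
    simp only [List.any_eq_true, List.mem_range, Bool.and_eq_true, decide_eq_true_eq]
    refine ⟨t, by omega, a, by simp only [hAB]; omega, w, ?_, hw2, by omega⟩
    unfold leaves
    have h4 : ((List.range (g x.length)).take t).length = w.length := by
      rw [List.length_take, List.length_range]
      omega
    simp only [h4]
    exact h3
  · intro h
    rw [hD] at h
    simp only [List.any_eq_true, List.mem_range, Bool.and_eq_true, decide_eq_true_eq] at h
    obtain ⟨t, _, a, _, w, _, h1, h2⟩ := h
    exact ⟨w, h2, h1⟩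

end Pool.Agent.TH682.GD
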